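import Pool.Agent.Helper470.DimT.G1
import Pool.Agent.Helper470.Dim.Aff

/-! Module A: interpretations, the conditions `alpha`, reduction of the dimension theorem to the
primeness statements. -/

namespace Pool.Agent.Helper470.DimT

open Pool.Agent.Helper470.Dim (IsAff)

/-! ### Interpretations -/

/-- `T` interprets `S`. -/
def Interp (S T : Theory) : Prop :=
  ∃ t : ∀ f : S.sig.Op, Term T.sig (Fin (S.sig.ar f)),
    ∀ (M : Type) (m : Str T.sig M), T.Models m → S.Models (fun f a => (t f).eval m a)

theorem Term.eval_subst {S : Sig} {V W M : Type} (m : Str S M) (v : W → M)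
    (σ : V → Term S W) (t : Term S V) :
    (t.subst σ).eval m v = t.eval m (fun x => (σ x).eval m v) := by
  induction t with
  | var x => rfl
  | op f a ih =>
    simp only [Term.subst, Term.eval]
    congr 1
    funext i
    exact ih i

theorem Term.eval_repl {S S' : Sig} {V M : Type} (t : ∀ f : S.Op, Term S' (Fin (S.ar f)))
    (m : Str S' M) (v : V → M) (s : Term S V) :
    (s.repl t).eval m v = s.eval (fun f a => (t f).eval m a) v := by
  induction s with
  | var x => rfl
  | op f a ih =>
    simp only [Term.repl, Term.eval, Term.eval_subst]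
    congr 1
    funext i
    exact ih i

/-- The theory of a condition. -/
def Cond.th (σ : Cond) : Theory := ⟨σ.sig, {e | e ∈ σ.ids}⟩

theorem satisfies_iff {V : Theory} {σ : Cond} : V.Satisfies σ ↔ Interp σ.th V := by
  constructor
  · rintro ⟨t, ht⟩
    refine ⟨t, ?_⟩
    intro M m hm e he v
    have := ht e he M m hm v
    simp only [Term.eval_repl] at this
    exact this
  · rintro ⟨t, ht⟩
    refine ⟨t, ?_⟩
    intro e he M m hm v
    simp only [Term.eval_repl]
    exact ht M m hm e he v

theorem Interp.refl (S : Theory) : Interp S S :=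
  ⟨fun f => .op f (fun i => .var i), fun _ _ hm => hm⟩

theorem Interp.trans {S T U : Theory} (h : Interp S T) (h' : Interp T U) : Interp S U := by
  obtain ⟨t, ht⟩ := h
  obtain ⟨u, hu⟩ := h'
  refine ⟨fun f => (t f).repl u, ?_⟩
  intro M m hm
  have := ht M _ (hu M m hm)
  simp only [Term.eval_repl]
  exact this

theorem interp_join {ι : Type} (T : ι → Theory) (i : ι) : Interp (T i) (join T) :=
  ⟨fun f => .op (⟨i, f⟩ : (joinSig T).Op) (fun i => .var i), fun _ m hm =>
    (join_models m).1 hm i⟩

theorem join_interp {ι : Type} {T : ι → Theory} {U : Theory} (h : ∀ i, Interp (T i) U) :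
    Interp (join T) U := by
  choose t ht using h
  refine ⟨fun f => t f.1 f.2, ?_⟩
  intro M m hm
  exact (join_models _).2 fun i => ht i M m hm

theorem PA.mono {S T : Theory} {n : ℕ} (h : Interp S T) (hP : PA S n) : PA T n := by
  obtain ⟨t, ht⟩ := h
  obtain ⟨p, hp⟩ := hP
  refine ⟨p.repl t, ?_⟩
  intro M m hm b
  have := hp M _ (ht M m hm) b
  simp only [Term.eval_repl]
  exact this

/-- All models have at most one element. -/
def Triv (T : Theory) : Prop :=
  ∀ (M : Type) (m : Str T.sig M), T.Models m → Subsingleton M

theorem Triv.mono {S T : Theory} (h : Interp S T) (hP : Triv S) : Triv T := by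
  obtain ⟨t, ht⟩ := h
  exact fun M m hm => hP M _ (ht M m hm)

/-- There is a constant term of arity `k0`. -/
def HasConst (k0 : ℕ) (T : Theory) : Prop :=
  ∃ e : Term T.sig (Fin k0), ∀ (M : Type) (m : Str T.sig M), T.Models m →
    ∀ v w : Fin k0 → M, e.eval m v = e.eval m w

theorem HasConst.mono {k0 : ℕ} {S T : Theory} (h : Interp S T) (hP : HasConst k0 S) :
    HasConst k0 T := by
  obtain ⟨t, ht⟩ := h
  obtain ⟨e, he⟩ := hP
  refine ⟨e.repl t, ?_⟩
  intro M m hm v w
  simp only [Term.eval_repl]
  exact he M _ (ht M m hm) v w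

/-! ### Linear models -/

theorem eval_linStr {S : Sig} {n : ℕ} (c : (f : S.Op) → Fin (S.ar f) → ZMod n) {V : Type}
    [Fintype V] (t : Term S V) : ∃ d : V → ZMod n, ∀ v : V → ZMod n,
      t.eval (linStr c) v = ∑ x, d x * v x := by
  classical
  induction t with
  | var x =>
    refine ⟨fun y => if y = x then 1 else 0, fun v => ?_⟩
    simp [Term.eval]
  | op f a ih =>
    choose d hd using ih
    refine ⟨fun x => ∑ i, c f i * d i x, fun v => ?_⟩
    simp only [Term.eval, linStr, hd, Finset.mul_sum, Finset.sum_mul]
    rw [Finset.sum_comm]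
    refine Finset.sum_congr rfl fun x _ => Finset.sum_congr rfl fun i _ => ?_
    ring

theorem HasLin.mono {S T : Theory} {n : ℕ} (h : Interp S T) (hl : HasLin T n) : HasLin S n := by
  obtain ⟨t, ht⟩ := h
  obtain ⟨c, hc⟩ := hl
  choose d hd using fun f => eval_linStr c (t f)
  refine ⟨d, ?_⟩
  have := ht _ _ hc
  have e : (fun f a => (t f).eval (linStr c) a : Str S.sig (ZMod n)) = linStr d := by
    funext f a
    exact hd f a
  rwa [e] at this

theorem HasLin.join {ι : Type} {T : ι → Theory} {n : ℕ} (h : ∀ i, HasLin (T i) n) :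
    HasLin (join T) n := by
  choose c hc using h
  exact ⟨fun f => c f.1 f.2, (join_models _).2 hc⟩

/-! ### The finite family version of primeness -/

theorem not_pa_empty {n : ℕ} (hn : 2 ≤ n) (T : Fin 0 → Theory) : ¬ PA (join T) n := by
  rintro ⟨t, ht⟩
  let m : Str (Pool.Agent.Helper470.DimT.join T).sig Bool := fun f _ => true
  have hm : (Pool.Agent.Helper470.DimT.join T).Models m := (join_models m).2 fun i => i.elim0
  cases t with
  | op f a => exact f.1.elim0
  | var x =>
    rcases x with j | u
    · have h := (ht Bool m hm true).single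
      have : ∃ i : Fin (n + 1), i ≠ j := by
        by_cases hj : j = 0
        · refine ⟨Fin.last n, ?_⟩
          subst hj
          intro h
          have := congrArg Fin.val h
          simp at this
          omega
        · exact ⟨0, fun h => hj h.symm⟩
      obtain ⟨i, hi⟩ := this
      have := h i true false
      simp only [Term.eval, Sum.elim_inl] at this
      rw [if_neg (Ne.symm hi)] at this
      exact absurd this (by simp)
    · have h := (ht Bool m hm true).single
      have := h 0 false false
      simp [Term.eval] at this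

/-- Binary primeness. -/
def PAPrime (n : ℕ) : Prop := ∀ T : Bool → Theory, (∀ i, Countable (T i).sig.Op) →
  (∀ i, HasLin (T i) n) → PA (join T) n → ∃ i, PA (T i) n

theorem pa_prime_fin {n : ℕ} (hn : 2 ≤ n) (hp : PAPrime n) : ∀ (k : ℕ) (T : Fin k → Theory),
    (∀ i, Countable (T i).sig.Op) → (∀ i, HasLin (T i) n) → PA (join T) n → ∃ i, PA (T i) n := by
  intro k
  induction k with
  | zero => intro T _ _ h; exact absurd h (not_pa_empty hn T)
  | succ k ih =>
    intro T hc hl h
    let T' : Bool → Theory := fun b => if b then T 0 else join (fun i : Fin k => T i.succ)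
    have h1 : Interp (join T) (join T') := by
      apply join_interp
      intro i
      refine Fin.cases ?_ (fun i => ?_) i
      · exact interp_join T' true
      · exact (interp_join (fun i : Fin k => T i.succ) i).trans (interp_join T' false)
    have hc' : ∀ b, Countable (T' b).sig.Op := by
      intro b
      cases b
      · have := fun i : Fin k => hc i.succ
        exact (inferInstance : Countable (Σ i : Fin k, (T i.succ).sig.Op))
      · exact hc 0
    have hl' : ∀ b, HasLin (T' b) n := by
      intro b
      cases b
      · exact HasLin.join (fun i : Fin k => hl i.succ)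
      · exact hl 0
    obtain ⟨b, hb⟩ := hp T' hc' hl' (h.mono h1)
    cases b
    · obtain ⟨i, hi⟩ := ih (fun i => T i.succ) (fun i => hc i.succ) (fun i => hl i.succ) hb
      exact ⟨i.succ, hi⟩
    · exact ⟨0, hb⟩

/-! ### Identities of commutative groups -/

theorem group_term_eval (t : Term groupSig ℕ) : ∃ c : ℕ →₀ ℤ, ∀ (G : Type) [CommGroup G]
    (v : ℕ → G), t.eval (groupStr G) v = c.prod (fun i k => v i ^ k) := by
  classical
  induction t with
  | var x =>
    refine ⟨Finsupp.single x 1, fun G _ v => ?_⟩
    rw [Finsupp.prod_single_index (by simp)]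
    simp [Term.eval]
  | op f a ih =>
    cases f with
    | mul =>
      change ∀ i : Fin 2, _ at ih
      obtain ⟨c0, h0⟩ := ih 0
      obtain ⟨c1, h1⟩ := ih 1
      refine ⟨c0 + c1, fun G _ v => ?_⟩
      rw [Finsupp.prod_add_index' (fun _ => zpow_zero _) (fun _ _ _ => zpow_add _ _ _)]
      rw [← h0 G v, ← h1 G v]
      rfl
    | inv =>
      change ∀ i : Fin 1, _ at ih
      obtain ⟨c0, h0⟩ := ih 0
      refine ⟨- c0, fun G _ v => ?_⟩
      rw [Finsupp.prod_neg_index (fun _ => zpow_zero _)]
      simp only [zpow_neg]
      have : (c0.prod fun a b => (v a ^ b)⁻¹) = (c0.prod fun a b => v a ^ b)⁻¹ := by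
        simp [Finsupp.prod, Finset.prod_inv_distrib]
      rw [this, ← h0 G v]
      rfl
    | one =>
      refine ⟨0, fun G _ v => ?_⟩
      simp only [Finsupp.prod_zero_index]
      rfl

/-- Identities of `A` hold in all abelian groups whose exponent divides that of `A`. -/
theorem models_VG {A G : Type} [CommGroup A] [CommGroup G]
    (h : ∀ g : G, g ^ Monoid.exponent A = 1) : (VG A).Models (groupStr G) := by
  classical
  rintro ⟨s, t⟩ he v
  change ∀ v : ℕ → A, s.eval (groupStr A) v = t.eval (groupStr A) v at he
  show s.eval (groupStr G) v = t.eval (groupStr G) v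
  obtain ⟨c, hc⟩ := group_term_eval s
  obtain ⟨d, hd⟩ := group_term_eval t
  have key : ∀ i, (Monoid.exponent A : ℤ) ∣ c i - d i := by
    intro i
    have h1 : ∀ a : A, a ^ (c i) = a ^ (d i) := by
      intro a
      have := he (Pi.mulSingle i a)
      rw [hc, hd] at this
      have aux : ∀ e : ℕ →₀ ℤ, (e.prod fun j k => (Pi.mulSingle i a : ℕ → A) j ^ k) = a ^ e i := by
        intro e
        rw [Finsupp.prod]
        rw [Finset.prod_eq_single i]
        · simp
        · intro j _ hj
          simp [Pi.mulSingle_eq_of_ne hj]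
        · intro hi
          simp [Finsupp.notMem_support_iff.1 hi]
      rwa [aux, aux] at this
    have h2 : ∀ a : A, a ^ (c i - d i).natAbs = 1 := by
      intro a
      have : a ^ (c i - d i) = 1 := by rw [zpow_sub, h1 a, mul_inv_cancel]
      rcases Int.natAbs_eq (c i - d i) with h3 | h3
      · rw [h3] at this
        simpa using this
      · rw [h3] at this
        simpa using this
    exact Int.natCast_dvd.2 (Monoid.exponent_dvd_of_forall_pow_eq_one h2)
  rw [hc, hd]
  have h4 : ∀ i, v i ^ c i = v i ^ d i := by
    intro i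
    obtain ⟨k, hk⟩ := key i
    have : v i ^ (c i - d i) = 1 := by
      rw [hk, zpow_mul, zpow_natCast, h, one_zpow]
    rw [zpow_sub] at this
    exact mul_inv_eq_one.1 this
  rw [Finsupp.prod_of_support_subset c (s := c.support ∪ d.support) (by simp) _ (by simp),
    Finsupp.prod_of_support_subset d (s := c.support ∪ d.support) (by simp) _ (by simp)]
  exact Finset.prod_congr rfl fun i _ => h4 i

/-- Coefficients of the group operations. -/
def groupCoef (n : ℕ) : (f : groupSig.Op) → Fin (groupSig.ar f) → ZMod n := fun f =>
  match f with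
  | .mul => fun _ => 1
  | .inv => fun _ => -1
  | .one => fun _ => 0

theorem linStr_groupCoef (n : ℕ) :
    (linStr (groupCoef n) : Str groupSig (ZMod n)) =
      (groupStr (Multiplicative (ZMod n)) : Str groupSig (ZMod n)) := by
  funext f a
  cases f with
  | mul =>
    show ∑ i : Fin 2, (1 : ZMod _) * a i = _
    rw [Fin.sum_univ_two, one_mul, one_mul]
    rfl
  | inv =>
    show ∑ i : Fin 1, (-1 : ZMod _) * a i = _
    rw [Fin.sum_univ_one, neg_one_mul]
    rfl
  | one =>
    show ∑ i : Fin 0, (0 : ZMod _) * a i = _
    rw [Fin.sum_univ_zero]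
    rfl

theorem hasLin_VG (A : Type) [CommGroup A] : HasLin (VG A) (Monoid.exponent A) := by
  refine ⟨groupCoef _, ?_⟩
  have h := models_VG (A := A) (G := Multiplicative (ZMod (Monoid.exponent A))) (by
    intro g
    rw [← ofAdd_toAdd g, ← ofAdd_nsmul]
    simp)
  have e := linStr_groupCoef (Monoid.exponent A)
  exact (congrArg (fun s : Str groupSig (ZMod (Monoid.exponent A)) =>
    (VG A).Models (M := ZMod (Monoid.exponent A)) s) e).mpr h

end Pool.Agent.Helper470.DimT
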