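import Pool.Agent.Helper470.DimT.A

/-! Module A, second part: the conditions `alpha` and the bound on the length of bases. -/

namespace Pool.Agent.Helper470.DimT

open Pool.Agent.Helper470.Dim (IsAff p3 p3_eq)

/-- Signature of `alpha`: a binary, a unary and a `k0`-ary symbol. -/
def alphaSig (k0 : ℕ) : Sig := ⟨Fin 3, ![2, 1, k0]⟩

def aM {k0 : ℕ} {V : Type} (x y : Term (alphaSig k0) V) : Term (alphaSig k0) V :=
  .op (0 : Fin 3) (fun i : Fin 2 => if i = 0 then x else y)

def aI {k0 : ℕ} {V : Type} (x : Term (alphaSig k0) V) : Term (alphaSig k0) V :=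
  .op (1 : Fin 3) (fun _ : Fin 1 => x)

def aE {k0 : ℕ} {V : Type} (ρ : Fin k0 → V) : Term (alphaSig k0) V :=
  .op (2 : Fin 3) (fun i : Fin k0 => .var (ρ i))

def aPow {k0 : ℕ} : ℕ → Term (alphaSig k0) ℕ
  | 0 => aE (fun i => i)
  | n + 1 => aM (.var 0) (aPow n)

/-- The identities of abelian groups of exponent dividing `n`. -/
def alphaIds (k0 n : ℕ) : List (Term (alphaSig k0) ℕ × Term (alphaSig k0) ℕ) :=
  [(aM (aM (.var 0) (.var 1)) (.var 2), aM (.var 0) (aM (.var 1) (.var 2))),
    (aM (.var 0) (.var 1), aM (.var 1) (.var 0)),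
    (aM (aE (fun i => i)) (.var 0), .var 0),
    (aM (aI (.var 0)) (.var 0), aE (fun i => i)),
    (aPow n, aE (fun i => i)),
    (aE (fun i => i), aE (fun i => k0 + i))]

/-- Abelian groups of exponent dividing `n`, as a strong Mal'cev condition with a binary, a unary
and a constant `k0`-ary symbol. -/
def alpha (k0 n : ℕ) : Cond where
  k := 3
  ar := ![2, 1, k0]
  ids := alphaIds k0 n

section
variable {k0 : ℕ} {G : Type} (s : Str (alphaSig k0) G)

def sM (a b : G) : G := s (0 : Fin 3) (fun i : Fin 2 => if i = 0 then a else b)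
def sI (a : G) : G := s (1 : Fin 3) (fun _ : Fin 1 => a)
def sE (v : Fin k0 → G) : G := s (2 : Fin 3) v

theorem eval_aM {V : Type} (v : V → G) (x y : Term (alphaSig k0) V) :
    (aM x y).eval s v = sM s (x.eval s v) (y.eval s v) := by
  show s (0 : Fin 3) (fun i : Fin 2 => Term.eval s v (if i = 0 then x else y)) = _
  unfold sM
  congr 1
  funext i
  split_ifs <;> rfl

theorem eval_aI {V : Type} (v : V → G) (x : Term (alphaSig k0) V) :
    (aI x).eval s v = sI s (x.eval s v) := rfl

theorem eval_aE {V : Type} (v : V → G) (ρ : Fin k0 → V) :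
    (aE ρ).eval s v = sE s (fun i => v (ρ i)) := rfl

theorem s0_eq (a : Fin 2 → G) : s (0 : Fin 3) a = sM s (a 0) (a 1) := by
  unfold sM
  congr 1
  funext i
  change a (i : Fin 2) = if (i : Fin 2) = 0 then a 0 else a 1
  revert i
  intro i
  change Fin 2 at i
  fin_cases i <;> rfl

theorem s1_eq (a : Fin 1 → G) : s (1 : Fin 3) a = sI s (a 0) := by
  unfold sI
  congr 1
  funext i
  change Fin 1 at i
  fin_cases i
  rfl

variable {s}

theorem alpha_iff {n : ℕ} : (alpha k0 n).th.Models s ↔
    (∀ x y z, sM s (sM s x y) z = sM s x (sM s y z)) ∧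
    (∀ x y, sM s x y = sM s y x) ∧
    (∀ v : ℕ → G, sM s (sE s (fun i => v i)) (v 0) = v 0) ∧
    (∀ v : ℕ → G, sM s (sI s (v 0)) (v 0) = sE s (fun i => v i)) ∧
    (∀ v : ℕ → G, (aPow n).eval s v = sE s (fun i => v i)) ∧
    (∀ v : ℕ → G, sE s (fun i => v i) = sE s (fun i => v (k0 + i))) := by
  have hmem : ∀ e : Term (alphaSig k0) ℕ × Term (alphaSig k0) ℕ,
      e ∈ (alpha k0 n).th.ids ↔ e ∈ alphaIds k0 n := fun e => Iff.rfl
  constructor
  · intro h
    have h' : ∀ e : Term (alphaSig k0) ℕ × Term (alphaSig k0) ℕ, e ∈ (alpha k0 n).th.ids →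
      ∀ v : ℕ → G, e.1.eval s v = e.2.eval s v := h
    refine ⟨fun x y z => ?_, fun x y => ?_, fun v => ?_, fun v => ?_, fun v => ?_, fun v => ?_⟩
    · have := h' _ ((hmem (_, _)).2 (by unfold alphaIds; left)) (fun k => if k = 0 then x else if k = 1 then y else z)
      simpa [eval_aM, Term.eval] using this
    · have := h' _ ((hmem (_, _)).2 (by unfold alphaIds; right; left)) (fun k => if k = 0 then x else y)
      simpa [eval_aM, Term.eval] using this
    · have := h' _ ((hmem (_, _)).2 (by unfold alphaIds; right; right; left)) v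
      simpa [eval_aM, eval_aE, Term.eval] using this
    · have := h' _ ((hmem (_, _)).2 (by unfold alphaIds; right; right; right; left)) v
      simpa [eval_aM, eval_aI, eval_aE, Term.eval] using this
    · have := h' _ ((hmem (_, _)).2 (by unfold alphaIds; right; right; right; right; left)) v
      simpa [eval_aE, Term.eval] using this
    · have := h' _ ((hmem (_, _)).2 (by unfold alphaIds; right; right; right; right; right; left)) v
      simpa [eval_aE, Term.eval] using this
  · rintro ⟨h1, h2, h3, h4, h5, h6⟩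
    have h' : ∀ e : Term (alphaSig k0) ℕ × Term (alphaSig k0) ℕ, e ∈ (alpha k0 n).th.ids →
      ∀ v : ℕ → G, e.1.eval s v = e.2.eval s v := by
      intro e he v
      rw [hmem] at he
      simp only [alphaIds, List.mem_cons, List.not_mem_nil, or_false] at he
      rcases he with rfl | rfl | rfl | rfl | rfl | rfl
      · simpa [eval_aM, Term.eval] using h1 _ _ _
      · simpa [eval_aM, Term.eval] using h2 _ _
      · simpa [eval_aM, eval_aE, Term.eval] using h3 v
      · simpa [eval_aM, eval_aI, eval_aE, Term.eval] using h4 v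
      · simpa [eval_aE, Term.eval] using h5 v
      · simpa [eval_aE, Term.eval] using h6 v
    exact h'

theorem eval_aPow_of {c : G} (hc : ∀ v, sE s v = c) (n : ℕ) (v : ℕ → G) :
    (aPow n).eval s v = (fun w => sM s (v 0) w)^[n] c := by
  induction n with
  | zero => simp [aPow, eval_aE, hc]
  | succ n ih =>
    rw [Function.iterate_succ_apply', ← ih]
    simp [aPow, eval_aM, Term.eval]

/-- A nonempty model of `alpha` is an abelian group of exponent dividing `n`. -/
theorem alpha_group {n : ℕ} (x0 : G) (h : (alpha k0 n).th.Models s) :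
    ∃ _ : CommGroup G, (∀ a b, sM s a b = a * b) ∧ (∀ a, sI s a = a⁻¹) ∧
      (∀ v, sE s v = 1) ∧ ∀ a : G, a ^ n = 1 := by
  obtain ⟨h1, h2, h3, h4, h5, h6⟩ := alpha_iff.1 h
  have hconst : ∀ v w : Fin k0 → G, sE s v = sE s w := by
    intro v w
    have := h6 (fun k => if h : k < k0 then v ⟨k, h⟩ else
      if h' : k - k0 < k0 then w ⟨k - k0, h'⟩ else x0)
    have e1 : (fun i : Fin k0 => (fun k => if h : k < k0 then v ⟨k, h⟩ else
      if h' : k - k0 < k0 then w ⟨k - k0, h'⟩ else x0) (i : ℕ)) = v := by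
      funext i
      simp
    have e2 : (fun i : Fin k0 => (fun k => if h : k < k0 then v ⟨k, h⟩ else
      if h' : k - k0 < k0 then w ⟨k - k0, h'⟩ else x0) (k0 + (i : ℕ))) = w := by
      funext i
      simp
    rw [e1, e2] at this
    exact this
  let c : G := sE s (fun _ => x0)
  have hc : ∀ v, sE s v = c := fun v => hconst v _
  let _ : Mul G := ⟨sM s⟩
  let _ : One G := ⟨c⟩
  let _ : Inv G := ⟨sI s⟩
  have one_mul' : ∀ a : G, 1 * a = a := by
    intro a
    have := h3 (fun _ => a)
    rw [hc] at this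
    exact this
  have inv_mul' : ∀ a : G, a⁻¹ * a = 1 := by
    intro a
    have := h4 (fun _ => a)
    rw [hc] at this
    exact this
  let g : Group G := Group.ofLeftAxioms h1 one_mul' inv_mul'
  let cg : CommGroup G := { g with mul_comm := h2 }
  refine ⟨cg, fun a b => rfl, fun a => rfl, hc, ?_⟩
  intro a
  have := h5 (fun _ => a)
  rw [eval_aPow_of hc, hc] at this
  have key : ∀ k : ℕ, (fun w => sM s a w)^[k] c = a ^ k := by
    intro k
    induction k with
    | zero => exact (pow_zero a).symm
    | succ k ih =>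
      rw [Function.iterate_succ_apply', ih, pow_succ']
      rfl
  rw [key] at this
  exact this

/-- Abelian groups of exponent dividing `n` are models of `alpha`. -/
theorem alpha_of_group {n : ℕ} [CommGroup G] (h1 : ∀ a b, sM s a b = a * b)
    (h2 : ∀ a, sI s a = a⁻¹) (h3 : ∀ v, sE s v = 1) (h4 : ∀ a : G, a ^ n = 1) :
    (alpha k0 n).th.Models s := by
  rw [alpha_iff]
  refine ⟨fun x y z => ?_, fun x y => ?_, fun v => ?_, fun v => ?_, fun v => ?_, fun v => ?_⟩
  · simp only [h1, mul_assoc]
  · simp only [h1, mul_comm]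
  · rw [h3, h1, one_mul]
  · rw [h1, h2, h3, inv_mul_cancel]
  · rw [eval_aPow_of h3, h3]
    have key : ∀ k : ℕ, (fun w => sM s (v 0) w)^[k] 1 = v 0 ^ k := by
      intro k
      induction k with
      | zero => exact (pow_zero _).symm
      | succ k ih =>
        rw [Function.iterate_succ_apply', ih, pow_succ', h1]
    rw [key, h4]
  · rw [h3, h3]

end

end Pool.Agent.Helper470.DimT
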