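import Pool.Agent.Helper470.DimT.A2

/-! Module A, third part: assembly. -/

namespace Pool.Agent.Helper470.DimT

open Pool.Agent.Helper470.Dim (IsAff p3 p3_eq)

/-- (1) The variety of `A` satisfies `alpha`. -/
theorem VG_alpha (k0 : ℕ) (A : Type) [CommGroup A] :
    (VG A).Satisfies (alpha k0 (Monoid.exponent A)) := by
  let t : ∀ i : Fin 3, Term groupSig (Fin ((![2, 1, k0] : Fin 3 → ℕ) i)) :=
    Fin.cons (α := fun i : Fin 3 => Term groupSig (Fin ((![2, 1, k0] : Fin 3 → ℕ) i)))
      (.op GOp.mul (fun i : Fin 2 => .var (i : Fin 2)) : Term groupSig (Fin 2))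
      (Fin.cons (α := fun i : Fin 2 => Term groupSig (Fin ((![2, 1, k0] : Fin 3 → ℕ) i.succ)))
        (.op GOp.inv (fun i : Fin 1 => .var (i : Fin 1)) : Term groupSig (Fin 1))
        (Fin.cons (α := fun i : Fin 1 => Term groupSig (Fin ((![2, 1, k0] : Fin 3 → ℕ)
            i.succ.succ)))
          (.op GOp.one (fun i : Fin 0 => i.elim0) : Term groupSig (Fin k0)) (fun i => i.elim0)))
  refine ⟨t, ?_⟩
  intro e he M m hm v
  refine hm (_, _) ?_ v
  intro w
  show Term.eval (groupStr A) w (Term.repl (S := (alpha k0 (Monoid.exponent A)).sig) t e.1) =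
    Term.eval (groupStr A) w (Term.repl (S := (alpha k0 (Monoid.exponent A)).sig) t e.2)
  rw [Term.eval_repl, Term.eval_repl]
  have key : (alpha k0 (Monoid.exponent A)).th.Models
      (fun f a => (t f).eval (groupStr A) a : Str (alphaSig k0) A) := by
    apply alpha_of_group
    · intro a b
      show (fun i : Fin 2 => if i = 0 then a else b) 0 * (fun i : Fin 2 => if i = 0 then a else b) 1
        = a * b
      simp
    · intro a
      rfl
    · intro v
      rfl
    · intro a
      exact Monoid.pow_exponent_eq_one a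
  exact key e he w

/-- Conditions all of whose symbols have arity at least `k0`. -/
def adm (k0 : ℕ) : Cond → Prop := fun σ => ∀ i, k0 ≤ σ.ar i

theorem alpha_adm {k0 : ℕ} (hk : k0 ≤ 1) (n : ℕ) : adm k0 (alpha k0 n) := by
  intro i
  change Fin 3 at i
  show k0 ≤ (![2, 1, k0] : Fin 3 → ℕ) i
  fin_cases i
  · show k0 ≤ 2
    omega
  · show k0 ≤ 1
    omega
  · show k0 ≤ k0
    omega

section
variable {V : Theory} {W : Type}

/-- Translation of group terms. -/
def trg (tm : Term V.sig (Fin 2)) (ti : Term V.sig (Fin 1)) (te : Term V.sig W) :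
    Term groupSig W → Term V.sig W
  | .var x => .var x
  | .op GOp.mul a => tm.subst (fun i : Fin 2 => trg tm ti te (a i))
  | .op GOp.inv a => ti.subst (fun i : Fin 1 => trg tm ti te (a i))
  | .op GOp.one _ => te

theorem eval_trg {tm : Term V.sig (Fin 2)} {ti : Term V.sig (Fin 1)} {te : Term V.sig W}
    {M : Type} [CommGroup M] (m : Str V.sig M) (hm : ∀ a : Fin 2 → M, tm.eval m a = a 0 * a 1)
    (hi : ∀ a : Fin 1 → M, ti.eval m a = (a 0)⁻¹) (w : W → M) (he : te.eval m w = 1)
    (s : Term groupSig W) : (trg tm ti te s).eval m w = s.eval (groupStr M) w := by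
  induction s with
  | var x => rfl
  | op f a ih =>
    cases f with
    | mul =>
      show Term.eval m w (tm.subst (fun i : Fin 2 => trg tm ti te (a i))) = _
      rw [Term.eval_subst, hm]
      have e0 := ih (0 : Fin 2)
      have e1 := ih (1 : Fin 2)
      rw [e0, e1]
      rfl
    | inv =>
      show Term.eval m w (ti.subst (fun i : Fin 1 => trg tm ti te (a i))) = _
      rw [Term.eval_subst, hi]
      have e0 := ih (0 : Fin 1)
      rw [e0]
      rfl
    | one => exact he

end

/-- (2) `alpha` implies every member of the SC-theory. -/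
theorem alpha_implies {k0 : ℕ} {A : Type} [CommGroup A] {V : Theory}
    (hV : V.Satisfies (alpha k0 (Monoid.exponent A))) {τ : Cond} (hτ : adm k0 τ)
    (hA : (VG A).Satisfies τ) : V.Satisfies τ := by
  obtain ⟨t, ht⟩ := satisfies_iff.1 hV
  obtain ⟨s, hs⟩ := satisfies_iff.1 hA
  let tm : Term V.sig (Fin 2) := t (0 : Fin 3)
  let ti : Term V.sig (Fin 1) := t (1 : Fin 3)
  let te : Term V.sig (Fin k0) := t (2 : Fin 3)
  let u : ∀ j : Fin τ.k, Term V.sig (Fin (τ.ar j)) := fun j =>
    trg tm ti (te.subst (fun i : Fin k0 => .var (Fin.castLE (hτ j) i))) (s j)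
  rw [satisfies_iff]
  refine ⟨u, ?_⟩
  intro M m hm e he v
  obtain ⟨g, g1, g2, g3, g4⟩ := alpha_group (s := (fun f a => (t f).eval m a :
    Str (alphaSig k0) M)) (v 0) (ht M m hm)
  have hg := hs M (groupStr M) (models_VG g4)
  have key : (fun j a => (u j).eval m a : Str τ.sig M) =
      fun j a => (s j).eval (groupStr M) a := by
    funext j a
    refine eval_trg (V := V) m ?_ ?_ a ?_ (s j)
    · intro b
      rw [← g1, ← s0_eq]
      rfl
    · intro b
      rw [← g2, ← s1_eq]
      rfl
    · have : (te.subst (fun i : Fin k0 => .var (Fin.castLE (hτ j) i))).eval m a = _ :=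
        Term.eval_subst m a _ te
      rw [this]
      exact g3 _
  exact (congrArg (fun S : Str τ.sig M => Term.eval S v e.1 = Term.eval S v e.2) key).mpr
    (hg e he v)

/-- (3) -/
theorem alpha_of_const_pa {k0 n : ℕ} (hn : 2 ≤ n) {V : Theory} (hc : HasConst k0 V)
    (hp : PA V n) : V.Satisfies (alpha k0 n) := by
  obtain ⟨e, he⟩ := hc
  obtain ⟨p, hp⟩ := hp
  have h0 : (0 : Fin (n+1)) ≠ Fin.last n := by
    intro h
    have := congrArg Fin.val h
    simp at this
    omega
  let C : ∀ W : Type, W → Term V.sig W := fun W w => e.subst (fun _ => .var w)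
  let tm : Term V.sig (Fin 2) := p.subst (Sum.elim
    (fun j => if j = 0 then .var 0 else if j = Fin.last n then .var 1 else C _ 0)
    (fun _ => C _ 0))
  let ti : Term V.sig (Fin 1) := p.subst (Sum.elim
    (fun j => if j = 0 then C _ 0 else if j = Fin.last n then C _ 0 else .var 0)
    (fun _ => C _ 0))
  let t : ∀ i : Fin 3, Term V.sig (Fin ((![2, 1, k0] : Fin 3 → ℕ) i)) :=
    Fin.cons (α := fun i : Fin 3 => Term V.sig (Fin ((![2, 1, k0] : Fin 3 → ℕ) i))) tm
      (Fin.cons (α := fun i : Fin 2 => Term V.sig (Fin ((![2, 1, k0] : Fin 3 → ℕ) i.succ))) ti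
        (Fin.cons (α := fun i : Fin 1 => Term V.sig (Fin ((![2, 1, k0] : Fin 3 → ℕ)
            i.succ.succ))) e (fun i => i.elim0)))
  rw [satisfies_iff]
  refine ⟨t, ?_⟩
  intro M m hm
  show (alpha k0 n).th.Models (fun f a => (t f).eval m a : Str (alphaSig k0) M)
  by_cases hM : Nonempty M
  · obtain ⟨x0⟩ := hM
    let c : M := e.eval m (fun _ => x0)
    have hc : ∀ v, e.eval m v = c := fun v => he M m hm v _
    obtain ⟨ag, hn0, hS⟩ := hp M m hm c
    have hC : ∀ (W : Type) (w : W) (a : W → M), (C W w).eval m a = c := by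
      intro W w a
      show (e.subst (fun _ => .var w)).eval m a = c
      rw [Term.eval_subst]
      exact hc _
    have p3' := p3_eq (n := n) hn hn0 hS
    have hM : ∀ a b : M, sM (fun f a => (t f).eval m a : Str (alphaSig k0) M) a b = a - c + b := by
      intro a b
      rw [← p3' a c b]
      show tm.eval m (fun i : Fin 2 => if i = 0 then a else b) = _
      simp only [tm, Term.eval_subst, p3]
      congr 1
      funext x
      rcases x with j | j
      · simp only [Sum.elim_inl]
        split_ifs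
        · rfl
        · rfl
        · exact hC _ _ _
      · simp only [Sum.elim_inr]
        exact hC _ _ _
    have hI : ∀ a : M, sI (fun f a => (t f).eval m a : Str (alphaSig k0) M) a = c - a + c := by
      intro a
      rw [← p3' c a c]
      show ti.eval m (fun i : Fin 1 => a) = _
      simp only [ti, Term.eval_subst, p3]
      congr 1
      funext x
      rcases x with j | j
      · simp only [Sum.elim_inl]
        split_ifs
        · exact hC _ _ _
        · exact hC _ _ _
        · rfl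
      · simp only [Sum.elim_inr]
        exact hC _ _ _
    have hE : ∀ v, sE (fun f a => (t f).eval m a : Str (alphaSig k0) M) v = c := fun v => hc v
    rw [alpha_iff]
    refine ⟨fun x y z => ?_, fun x y => ?_, fun v => ?_, fun v => ?_, fun v => ?_, fun v => ?_⟩
    · rw [hM, hM, hM, hM]; abel
    · rw [hM, hM]; abel
    · rw [hE, hM]; abel
    · rw [hM, hI, hE]; abel
    · rw [eval_aPow_of hE, hE]
      have key : ∀ k : ℕ, (fun w => sM (fun f a => (t f).eval m a : Str (alphaSig k0) M)
          (v 0) w)^[k] c = k • (v 0 - c) + c := by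
        intro k
        induction k with
        | zero => simp
        | succ k ih =>
          rw [Function.iterate_succ_apply', ih, hM, succ_nsmul]
          abel
      rw [key, hn0, zero_add]
    · rw [hE, hE]
  · intro e' _ v
    exact absurd ⟨v 0⟩ hM

/-- (4) -/
theorem alpha_of_const_triv {k0 n : ℕ} {V : Theory} (hc : HasConst k0 V)
    (hp : Triv V) : V.Satisfies (alpha k0 n) := by
  obtain ⟨e, he⟩ := hc
  let t : ∀ i : Fin 3, Term V.sig (Fin ((![2, 1, k0] : Fin 3 → ℕ) i)) :=
    Fin.cons (α := fun i : Fin 3 => Term V.sig (Fin ((![2, 1, k0] : Fin 3 → ℕ) i)))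
      (.var 0 : Term V.sig (Fin 2))
      (Fin.cons (α := fun i : Fin 2 => Term V.sig (Fin ((![2, 1, k0] : Fin 3 → ℕ) i.succ)))
        (.var 0 : Term V.sig (Fin 1))
        (Fin.cons (α := fun i : Fin 1 => Term V.sig (Fin ((![2, 1, k0] : Fin 3 → ℕ)
            i.succ.succ))) e (fun i => i.elim0)))
  refine ⟨t, ?_⟩
  intro e' _ M m hm v
  have := hp M m hm
  exact Subsingleton.elim _ _

/-- (5) -/
theorem const_of_alpha {k0 n : ℕ} {V : Theory} (h : V.Satisfies (alpha k0 n)) :
    HasConst k0 V := by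
  obtain ⟨t, ht⟩ := satisfies_iff.1 h
  refine ⟨t (2 : Fin 3), ?_⟩
  intro M m hm v w
  by_cases hM : Nonempty M
  · obtain ⟨x0⟩ := hM
    obtain ⟨g, g1, g2, g3, g4⟩ := alpha_group (s := (fun f a => (t f).eval m a :
      Str (alphaSig k0) M)) x0 (ht M m hm)
    exact (g3 v).trans (g3 w).symm
  · have : v = w := by
      funext i
      exact absurd ⟨v i⟩ hM
    rw [this]

/-- (6) -/
theorem triv_of_alpha {k0 : ℕ} {V : Theory} (h : V.Satisfies (alpha k0 1)) : Triv V := by
  obtain ⟨t, ht⟩ := satisfies_iff.1 h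
  intro M m hm
  refine ⟨fun a b => ?_⟩
  obtain ⟨g, g1, g2, g3, g4⟩ := alpha_group (s := (fun f a => (t f).eval m a :
    Str (alphaSig k0) M)) a (ht M m hm)
  have h1 := g4 a
  have h2 := g4 b
  rw [pow_one] at h1 h2
  rw [h1, h2]

/-- The product of `k + 1` terms. -/
def prodT {k0 : ℕ} {W : Type} (ρ : ℕ → Term (alphaSig k0) W) : ℕ → Term (alphaSig k0) W
  | 0 => ρ 0
  | k + 1 => aM (prodT ρ k) (ρ (k + 1))

theorem eval_prodT {k0 : ℕ} {W M : Type} (ρ : ℕ → Term (alphaSig k0) W) [CommGroup M]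
    {s : Str (alphaSig k0) M} (h : ∀ a b, sM s a b = a * b) (w : W → M) (k : ℕ) :
    (prodT ρ k).eval s w = ∏ i ∈ Finset.range (k + 1), (ρ i).eval s w := by
  induction k with
  | zero => simp [prodT]
  | succ k ih =>
    rw [prodT, eval_aM, h, ih, ← Finset.prod_range_succ]

/-- (5') -/
theorem pa_of_alpha {k0 n : ℕ} {V : Theory} (h : V.Satisfies (alpha k0 n)) : PA V n := by
  apply PA.mono (satisfies_iff.1 h)
  refine ⟨prodT (fun i => if h : i < n + 1 then .var (Sum.inl ⟨i, h⟩) else .var (Sum.inr ())) n, ?_⟩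
  intro M s hs b
  obtain ⟨g, g1, g2, g3, g4⟩ := alpha_group (s := s) b hs
  refine ⟨(inferInstance : AddCommGroup (Additive M)), fun x => ?_, fun a => ?_⟩
  · exact g4 x
  · refine (eval_prodT (k0 := k0) _ (s := s) g1 _ n).trans ?_
    rw [Finset.prod_range]
    show _ = ∏ i : Fin (n + 1), a i
    refine Finset.prod_congr rfl fun i _ => ?_
    rw [dif_pos i.2]
    rfl

/-- Primeness of the existence of constants, for theories of symbols of arity `≥ k0`. -/
def ConstPrime (k0 : ℕ) : Prop := ∀ (k : ℕ) (T : Fin k → Theory),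
  (∀ i f, k0 ≤ (T i).sig.ar f) → (∀ i, Countable (T i).sig.Op) → HasConst k0 (join T) →
  ∃ i, HasConst k0 (T i)

/-- Primeness of triviality. -/
def TrivPrime : Prop := ∀ (k : ℕ) (T : Fin k → Theory), (∀ i, Countable (T i).sig.Op) →
  Triv (join T) → ∃ i, Triv (T i)

theorem length_le {k0 : ℕ} (hk : k0 ≤ 1) (hp : ∀ n, 2 ≤ n → PAPrime n) (hT : TrivPrime)
    (hC : ConstPrime k0) {A : Type} [CommGroup A] [Finite A] {B : Set Cond}
    (hB : IsBasis B (SC (adm k0) (VG A))) : B.encard ≤ 2 := by
  obtain ⟨hsub, hgen, hind⟩ := hB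
  have hn0 : Monoid.exponent A ≠ 0 := Monoid.exponent_ne_zero_of_finite
  obtain ⟨Γ, hΓ, hfin, himp⟩ := hgen (alpha k0 (Monoid.exponent A))
    ⟨alpha_adm hk _, VG_alpha k0 A⟩
  have : Finite Γ := hfin
  obtain ⟨k, ⟨e⟩⟩ := Finite.exists_equiv_fin Γ
  let T : Fin k → Theory := fun j => (e.symm j).1.th
  have hJ : (join T).Satisfies (alpha k0 (Monoid.exponent A)) := by
    apply himp
    intro σ hσ
    rw [satisfies_iff]
    have := interp_join T (e ⟨σ, hσ⟩)
    simp only [T, Equiv.symm_apply_apply] at this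
    exact this
  have hTc : ∀ i, Countable (T i).sig.Op := fun i =>
    (inferInstance : Countable (Fin (e.symm i).1.k))
  obtain ⟨j1, hj1⟩ := hC k T (fun i f => (hsub (hΓ (e.symm i).2)).1 f) hTc (const_of_alpha hJ)
  have h2 : ∃ j2, ∀ V : Theory, Interp (T j2) V → HasConst k0 V →
      V.Satisfies (alpha k0 (Monoid.exponent A)) := by
    by_cases h1 : Monoid.exponent A = 1
    · rw [h1] at hJ ⊢
      obtain ⟨j2, hj2⟩ := hT k T hTc (triv_of_alpha hJ)
      exact ⟨j2, fun V hV hc => alpha_of_const_triv hc (hj2.mono hV)⟩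
    · have hn : 2 ≤ Monoid.exponent A := by omega
      obtain ⟨j2, hj2⟩ := pa_prime_fin hn (hp _ hn) k T hTc (fun i => by
        have := (hsub (hΓ (e.symm i).2)).2
        exact HasLin.mono (satisfies_iff.1 this) (hasLin_VG A)) (pa_of_alpha hJ)
      exact ⟨j2, fun V hV hc => alpha_of_const_pa hn hc (hj2.mono hV)⟩
  obtain ⟨j2, hj2⟩ := h2
  let σ1 : Cond := (e.symm j1).1
  let σ2 : Cond := (e.symm j2).1
  have hpair : ∀ τ ∈ SC (adm k0) (VG A), ImpliedBy {σ1, σ2} τ := by
    intro τ hτ V hV
    have a1 := satisfies_iff.1 (hV σ1 (by simp))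
    have a2 := satisfies_iff.1 (hV σ2 (by simp))
    exact alpha_implies (hj2 V a2 (hj1.mono a1)) hτ.1 hτ.2
  have hBs : B ⊆ {σ1, σ2} := by
    intro σ hσ
    by_contra hne
    refine hind σ hσ ⟨{σ1, σ2}, ?_, by simp, hpair σ (hsub hσ)⟩
    intro τ hτ
    refine ⟨?_, fun h => ?_⟩
    · rcases hτ with h | h
      · rw [h]; exact hΓ (e.symm j1).2
      · rw [Set.mem_singleton_iff.1 h]; exact hΓ (e.symm j2).2
    · rw [Set.mem_singleton_iff.1 h] at hτ
      exact hne hτ
  refine (Set.encard_le_encard hBs).trans ((Set.encard_insert_le _ _).trans ?_)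
  rw [Set.encard_singleton]
  exact one_add_one_eq_two.le

/-- (all arities) closed terms -/
theorem constPrime_zero : ConstPrime 0 := by
  intro k T _ _ h
  obtain ⟨e, he⟩ := h
  have key : ∀ t : Term (join T).sig (Fin 0), ∃ i, ∃ f : (T i).sig.Op, (T i).sig.ar f = 0 := by
    intro t
    induction t with
    | var x => exact x.elim0
    | op f a ih =>
      by_cases h : (T f.1).sig.ar f.2 = 0
      · exact ⟨f.1, f.2, h⟩
      · exact ih (⟨0, Nat.pos_of_ne_zero h⟩ : Fin ((T f.1).sig.ar f.2))
  obtain ⟨i, f, hf⟩ := key e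
  refine ⟨i, .op f (fun j => absurd j.2 (by omega)), ?_⟩
  intro M m hm v w
  have : v = w := by
    funext j
    exact j.elim0
  rw [this]

theorem dim_le {k0 : ℕ} (hk : k0 ≤ 1) (hp : ∀ n, 2 ≤ n → PAPrime n) (hT : TrivPrime)
    (hC : ConstPrime k0) (A : Type) [CommGroup A] [Finite A] :
    dim (adm k0) (VG A) ≤ 2 :=
  iSup₂_le fun _ hB => length_le hk hp hT hC hB

theorem adm_zero : adm 0 = anyArity := by
  funext σ
  exact propext ⟨fun _ => trivial, fun _ i => Nat.zero_le _⟩

theorem adm_one : adm 1 = posArity := rfl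

end Pool.Agent.Helper470.DimT
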