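import Pool.Agent.Helper470.DimT.A3

/-! Non-vacuity: the condition `alpha` alone is a basis. -/

namespace Pool.Agent.Helper470.DimT

/-- The theory with no operation symbols and no identities. -/
def setTheory : Theory := ⟨⟨Empty, fun e => e.elim⟩, ∅⟩

theorem not_satisfies_alpha (k0 n : ℕ) : ¬ setTheory.Satisfies (alpha k0 n) := by
  intro h
  obtain ⟨t, ht⟩ := satisfies_iff.1 h
  let m0 : Str setTheory.sig Bool := fun e : Empty => e.elim
  have hm : setTheory.Models m0 := fun e he => he.elim
  obtain ⟨-, h2, -⟩ := alpha_iff.1 (ht Bool m0 hm)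
  have hvar : ∀ s : Term setTheory.sig (Fin 2), ∃ j, s = .var j := by
    intro s
    cases s with
    | var j => exact ⟨j, rfl⟩
    | op f a => exact Empty.elim f
  obtain ⟨j, hj⟩ := hvar (t (0 : Fin 3))
  have key : ∀ a b : Bool, sM (fun f a => (t f).eval m0 a : Str (alphaSig k0) Bool) a b =
      if j = 0 then a else b := by
    intro a b
    show (t (0 : Fin 3)).eval m0 (fun i : Fin 2 => if i = 0 then a else b) = _
    rw [hj]
    rfl
  have h1 : (if j = 0 then true else false) = (if j = 0 then false else true) :=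
    (key true false).symm.trans ((h2 true false).trans (key false true))
  split_ifs at h1

/-- `{alpha}` is a basis. -/
theorem isBasis_alpha {k0 : ℕ} (hk : k0 ≤ 1) (A : Type) [CommGroup A] :
    IsBasis {alpha k0 (Monoid.exponent A)} (SC (adm k0) (VG A)) := by
  refine ⟨?_, ?_, ?_⟩
  · intro σ hσ
    rw [Set.mem_singleton_iff.1 hσ]
    exact ⟨alpha_adm hk _, VG_alpha k0 A⟩
  · intro τ hτ
    refine ⟨_, subset_rfl, Set.finite_singleton _, ?_⟩
    intro V hV
    exact alpha_implies (hV _ rfl) hτ.1 hτ.2
  · rintro σ hσ ⟨Γ, hΓ, _, himp⟩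
    rw [Set.mem_singleton_iff.1 hσ] at hΓ himp
    apply not_satisfies_alpha k0 (Monoid.exponent A)
    apply himp
    intro τ hτ
    exact absurd (hΓ hτ).1 (hΓ hτ).2

end Pool.Agent.Helper470.DimT
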