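import Pool.Agent.Helper470.DimT.G1
import Pool.Agent.Helper470.Dim.Aff

set_option autoImplicit false

/-! The affine identities characterise the `(n+1)`-ary sums of abelian groups of exponent
dividing `n`. -/

namespace Pool.Agent.Helper470.DimT

open Pool.Agent.Helper470.Dim (IsAff p3)

theorem isAffOf : G1.IsAffOf := by
  classical
  intro A hA n hn S s1 s2 s3
  have h0 : (0 : Fin (n+1)) ≠ Fin.last n := by
    intro h
    have := congrArg Fin.val h
    simp at this
    omega
  -- rewriting of the third identity
  have s3' : ∀ (a : Fin (n + 1) → A) (u v : A),
      p3 S (S (Function.update a (Fin.last n) u)) u v = S (Function.update a (Fin.last n) v) := by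
    intro a u v
    have h := s3 a u v
    have e : ∀ w : A, (fun k => if k = Fin.last n then w else a k) =
        Function.update a (Fin.last n) w := by
      intro w
      funext k
      by_cases hk : k = Fin.last n
      · subst hk; simp
      · simp [hk]
    rw [e, e] at h
    exact h
  have p3u : ∀ x u y : A, p3 S x u y =
      S (Function.update (Function.update (fun _ : Fin (n+1) => u) 0 x) (Fin.last n) y) := by
    intro x u y
    unfold p3
    congr 1
    funext j
    by_cases hj : j = 0
    · subst hj; simp [h0]
    · by_cases hj' : j = Fin.last n
      · subst hj'; simp [hj]
      · simp [hj, hj']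
  have mal : ∀ x y : A, p3 S x y y = x := by
    intro x y
    have h := s2 x y
    unfold p3
    simpa using h
  have sym : ∀ x y z : A, p3 S x y z = p3 S z y x := by
    intro x y z
    have h := s1 (Equiv.swap 0 (Fin.last n))
      (fun j => if j = 0 then z else if j = Fin.last n then x else y)
    unfold p3
    rw [← h]
    congr 1
    funext j
    by_cases hj : j = 0
    · subst hj; simp [h0.symm]
    · by_cases hj' : j = Fin.last n
      · subst hj'; simp [hj]
      · simp [hj, hj', Equiv.swap_apply_of_ne_of_ne hj hj']
  have chas : ∀ x y u v : A, p3 S (p3 S x y u) u v = p3 S x y v := by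
    intro x y u v
    rw [p3u x y u, s3', ← p3u]
  have comp : ∀ z x y u : A, p3 S z x (p3 S x y u) = p3 S z y u := by
    intro z x y u
    rw [sym z x, sym x y u, chas, sym]
  let o : A := Classical.choice hA
  -- the group
  let iA : Add A := ⟨fun x y => p3 S x o y⟩
  let iZ : Zero A := ⟨o⟩
  let iN : Neg A := ⟨fun x => p3 S o x o⟩
  let G : AddCommGroup A :=
    { add_assoc := by
        intro x y z
        show p3 S (p3 S x o y) o z = p3 S x o (p3 S y o z)
        rw [sym (p3 S x o y) o z, sym x o y, sym x o (p3 S y o z)]
        have e1 : p3 S (p3 S z o y) y (p3 S y o x) = p3 S (p3 S z o y) o x := comp _ _ _ _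
        rw [chas] at e1
        rw [e1, sym z o y]
      zero_add := by
        intro x
        show p3 S o o x = x
        rw [sym, mal]
      add_zero := by
        intro x
        exact mal x o
      nsmul := nsmulRec
      zsmul := zsmulRec
      neg_add_cancel := by
        intro x
        show p3 S (p3 S o x o) o x = o
        rw [chas, mal]
      add_comm := by
        intro x y
        exact sym x o y }
  have hadd : ∀ x y : A, x + y = p3 S x o y := fun _ _ => rfl
  have hzero : (0 : A) = o := rfl
  -- splitting off the last coordinate
  have last : ∀ (a : Fin (n+1) → A) (v : A), S (Function.update a (Fin.last n) v) =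
      S (Function.update a (Fin.last n) 0) + v := by
    intro a v
    rw [hadd, hzero]
    exact (s3' a o v).symm
  have any : ∀ (i : Fin (n+1)) (a : Fin (n+1) → A) (v : A), S (Function.update a i v) =
      S (Function.update a i 0) + v := by
    intro i a v
    have key : ∀ w : A, S (Function.update a i w) =
        S (Function.update (a ∘ Equiv.swap i (Fin.last n)) (Fin.last n) w) := by
      intro w
      rw [← s1 (Equiv.swap i (Fin.last n)) (Function.update a i w)]
      congr 1
      funext j
      by_cases hj : j = Fin.last n
      · subst hj; simp
      · rw [Function.update_of_ne hj, Function.comp_apply, Function.comp_apply,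
          Function.update_of_ne]
        intro h
        apply hj
        rw [Equiv.swap_apply_eq_iff] at h
        simpa using h
    rw [key, last, ← key]
  have zer : S (fun _ => (0 : A)) = 0 := by
    have := s2 0 0
    simpa using this
  have sums : ∀ a : Fin (n+1) → A, S a = ∑ i, a i := by
    intro a
    have key : ∀ s : Finset (Fin (n+1)), S (fun j => if j ∈ s then a j else 0) = ∑ i ∈ s, a i := by
      intro s
      induction s using Finset.induction_on with
      | empty => simpa using zer
      | insert i s hi ih =>
        rw [Finset.sum_insert hi, ← ih]
        have e1 : (fun j => if j ∈ insert i s then a j else 0) =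
            Function.update (fun j => if j ∈ s then a j else 0) i (a i) := by
          funext j
          by_cases hj : j = i
          · subst hj; simp
          · simp [hj]
        have e2 : (fun j => if j ∈ s then a j else 0) =
            Function.update (fun j => if j ∈ s then a j else 0) i 0 := by
          funext j
          by_cases hj : j = i
          · subst hj; simp [hi]
          · simp [hj]
        rw [e1, any, ← e2, add_comm]
    have := key Finset.univ
    simpa using this
  refine ⟨G, ?_, sums⟩
  intro y
  have h := s2 0 y
  rw [sums] at h
  have e : (fun j : Fin (n+1) => if j = 0 then (0:A) else y) = Function.update (fun _ => y) 0 0 := by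
    funext j
    by_cases hj : j = 0
    · subst hj; simp
    · simp [hj]
  rw [e, Pool.Agent.Helper470.Dim.sum_split] at h
  simp only [Finset.sum_const, Finset.card_univ, Fintype.card_fin, add_zero] at h
  rw [succ_nsmul] at h
  simpa using h

end Pool.Agent.Helper470.DimT
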