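import Pool.Agent.Helper470.DimT.NonT

set_option autoImplicit false

/-! Having a constant unary term is join prime for theories without nullary symbols. -/

namespace Pool.Agent.Helper470.DimT

open LayB

/-- `T` has a constant term in `k` variables. -/
def CstTerm (k : ℕ) (T : Theory) : Prop :=
  ∃ t : Term T.sig (Fin k), ∀ (M : Type) (m : Str T.sig M), T.Models m →
    ∀ v w : Fin k → M, t.eval m v = t.eval m w

theorem cl_unary {T : Theory} {F : Type} {m : Str T.sig F} {A : Set F} {q : F} (h : Cl m A q) :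
    ∃ t : Term T.sig (Fin 1), ∀ (N : Type) (b : Str T.sig N) (φ : F → N), IsHom m b φ →
      ∀ x : N, (∀ a ∈ A, φ a = x) → φ q = t.eval b (fun _ => x) := by
  induction h with
  | base ha => exact ⟨.var 0, fun N b φ _ x hx => hx _ ha⟩
  | op f v _ ih =>
    choose t ht using ih
    refine ⟨.op f t, fun N b φ hφ x hx => ?_⟩
    rw [hφ]
    show b f _ = b f _
    congr 1
    funext i
    exact ht i N b φ hφ x hx

theorem two_closed (T : Theory) [Countable T.sig.Op] (hT : ¬ CstTerm 1 T) :
    ∃ s : Str T.sig (Σ _ : Fin 3, ℕ), T.Models s ∧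
      (∀ f a, (∀ j, (a j).1 = 0) → (s f a).1 = 0) ∧
      (∀ f a, (∀ j, (a j).1 = 1) → (s f a).1 = 1) := by
  classical
  have hN : Nontriv T := by
    by_contra h
    apply hT
    refine ⟨.var 0, fun M m hm v w => ?_⟩
    by_contra hvw
    exact h ⟨M, m, hm, _, _, hvw⟩
  let V : Type := Fin 3 × ℕ
  let F : Type := FA T V
  let A : Fin 3 → Set F := fun i => {q | ∃ k : ℕ, q = FA.var (i, k)}
  have := countable_FA T V
  -- a hom with prescribed values
  have lift : ∀ {N : Type} (b : Str T.sig N), T.Models b → ∀ g : Fin 3 → N,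
      ∃ φ : F → N, IsHom (FA.str T V) b φ ∧ ∀ i, ∀ a ∈ A i, φ a = g i := by
    intro N b hb g
    obtain ⟨φ, hφ, hφ2⟩ := FA.lift b hb (fun v : V => g v.1)
    refine ⟨φ, hφ, ?_⟩
    rintro i _ ⟨k, rfl⟩
    exact hφ2 (i, k)
  have disj : ∀ q : F, Cl (FA.str T V) (A 0) q → Cl (FA.str T V) (A 1) q → False := by
    intro q h0 h1
    obtain ⟨t, ht⟩ := cl_unary h0
    apply hT
    refine ⟨t, fun M m hm v w => ?_⟩
    obtain ⟨φ, hφ, hφ2⟩ := lift m hm (fun i => if i = 0 then v 0 else v 0)
    obtain ⟨ψ, hψ, hψ2⟩ := lift m hm (fun i => if i = 0 then w 0 else v 0)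
    have e1 := ht M m φ hφ (v 0) (fun a ha => by simpa using hφ2 0 a ha)
    have e2 := ht M m ψ hψ (w 0) (fun a ha => by simpa using hψ2 0 a ha)
    have e3 : φ q = ψ q := h1.eqOn hφ hψ (fun a ha => by
      rw [hφ2 1 a ha, hψ2 1 a ha]; simp)
    have ev : v = fun _ => v 0 := by funext i; rw [Subsingleton.elim i 0]
    have ew : w = fun _ => w 0 := by funext i; rw [Subsingleton.elim i 0]
    rw [ev, ew, ← e1, ← e2, e3]
  have third : ∀ (i : Fin 3) (k : ℕ), i ≠ 2 → ¬ Cl (FA.str T V) (A i) (FA.var (2, k)) := by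
    intro i k hi h
    obtain ⟨N, b, hb, x, y, hxy⟩ := hN
    obtain ⟨φ, hφ, hφ2⟩ := lift b hb (fun i => if i = 2 then x else x)
    obtain ⟨ψ, hψ, hψ2⟩ := lift b hb (fun i => if i = 2 then y else x)
    have e := h.eqOn hφ hψ (fun a ha => by rw [hφ2 i a ha, hψ2 i a ha]; simp [hi])
    rw [hφ2 2 _ ⟨k, rfl⟩, hψ2 2 _ ⟨k, rfl⟩] at e
    simp at e
    exact hxy e
  let c : F → Fin 3 := fun q => if Cl (FA.str T V) (A 0) q then 0
    else if Cl (FA.str T V) (A 1) q then 1 else 2
  have c0 : ∀ q, c q = 0 ↔ Cl (FA.str T V) (A 0) q := by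
    intro q
    by_cases h : Cl (FA.str T V) (A 0) q
    · simp [c, h]
    · by_cases h' : Cl (FA.str T V) (A 1) q
      · simp [c, h, h']
      · simp only [c, h, h', if_false]
        decide
  have c1 : ∀ q, c q = 1 ↔ Cl (FA.str T V) (A 1) q := by
    intro q
    by_cases h : Cl (FA.str T V) (A 0) q
    · have h' : ¬ Cl (FA.str T V) (A 1) q := fun h' => disj q h h'
      simp [c, h, h']
    · by_cases h' : Cl (FA.str T V) (A 1) q
      · simp [c, h, h']
      · simp only [c, h, h', if_false]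
        decide
  have hinf : ∀ i : Fin 3, Infinite {q : F // c q = i} := by
    intro i
    have hi : ∀ k : ℕ, c (FA.var (i, k)) = i := by
      intro k
      fin_cases i
      · exact (c0 _).2 (Cl.base ⟨k, rfl⟩)
      · exact (c1 _).2 (Cl.base ⟨k, rfl⟩)
      · have h0 := third 0 k (by decide)
        have h1 := third 1 k (by decide)
        show c (FA.var (2, k)) = 2
        simp only [c, h0, h1, if_false]
    refine Infinite.of_injective (fun k : ℕ => (⟨FA.var (i, k), hi k⟩ : {q : F // c q = i})) ?_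
    intro k l h
    have := FA.var_inj hN (Subtype.ext_iff.1 h)
    exact (Prod.ext_iff.1 this).2
  have he : ∀ i : Fin 3, Nonempty ({q : F // c q = i} ≃ ℕ) := fun i => by
    have := hinf i
    exact nonempty_equiv_of_countable
  let e : ∀ i : Fin 3, {q : F // c q = i} ≃ ℕ := fun i => (he i).some
  let E : F ≃ (Σ _ : Fin 3, ℕ) :=
    (Equiv.sigmaFiberEquiv c).symm.trans (Equiv.sigmaCongrRight e)
  have hE : ∀ q, (E q).1 = c q := fun q => rfl
  have hE' : ∀ p, c (E.symm p) = p.1 := by
    intro p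
    rw [← hE, Equiv.apply_symm_apply]
  refine ⟨_, models_of_equiv E (FA.models T V), ?_, ?_⟩
  · intro f a ha
    rw [hE, c0]
    refine Cl.op f _ fun j => ?_
    rw [← c0, hE', ha]
  · intro f a ha
    rw [hE, c1]
    refine Cl.op f _ fun j => ?_
    rw [← c1, hE', ha]

/-- Join primeness of the existence of a constant term, in the absence of nullary symbols. -/
theorem cstTerm_join {ι : Type} (T : ι → Theory) (hc : ∀ i, Countable (T i).sig.Op)
    (h : CstTerm 1 (join T)) : ∃ i, CstTerm 1 (T i) := by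
  by_contra hcon
  push Not at hcon
  have h1 : ∀ i, ∃ s : Str (T i).sig (Σ _ : Fin 3, ℕ), (T i).Models s ∧
      (∀ f a, (∀ j, (a j).1 = 0) → (s f a).1 = 0) ∧
      (∀ f a, (∀ j, (a j).1 = 1) → (s f a).1 = 1) := fun i => by
    have := hc i
    exact two_closed (T i) (hcon i)
  choose s hs s0 s1 using h1
  obtain ⟨t, ht⟩ := h
  have hm : (join T).Models (joinStr s) := by
    rw [join_models]; exact hs
  have key : ∀ r : Fin 3, (∀ i f a, (∀ j, (a j).1 = r) → (s i f a).1 = r) →
      ∀ u : Term (join T).sig (Fin 1), (u.eval (joinStr s) (fun _ => ⟨r, 0⟩)).1 = r := by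
    intro r hr u
    induction u with
    | var x => rfl
    | op f a ih => exact hr f.1 f.2 _ ih
  have e0 := key 0 s0 t
  have e1 := key 1 s1 t
  rw [ht _ _ hm (fun _ => ⟨0, 0⟩) (fun _ => ⟨1, 0⟩), e1] at e0
  exact absurd e0 (by decide)

end Pool.Agent.Helper470.DimT
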