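import Pool.Agent.Helper470.DimT.AffOf
import Pool.Agent.Helper470.Dim.Core7

set_option autoImplicit false

namespace Pool.Agent.Helper470.DimT

/-- The parametric affine condition of exponent `n ≥ 2` is join prime for pairs of theories with
linear models on `ZMod n`. -/
theorem pa_prime (T : Bool → Theory) {n : ℕ} (hn : 2 ≤ n)
    (hc : ∀ i, Countable (T i).sig.Op) (hl : ∀ i, HasLin (T i) n)
    (h : PA (join T) n) : ∃ i, PA (T i) n :=
  pa_prime_of Pool.Agent.Helper470.Dim.core isAffOf T hn hc hl h

end Pool.Agent.Helper470.DimT
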