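import Pool.Agent.Helper470.DimT.A4
import Pool.Agent.Helper470.DimT.Prime
import Pool.Agent.Helper470.DimT.Cst

set_option autoImplicit false

namespace Pool.Agent.Helper470.DimT

theorem trivPrime : TrivPrime := by
  intro k T hc h
  by_contra hcon
  push Not at hcon
  obtain ⟨N, s, hs, x, y, hxy⟩ := nontriv_join T hc (fun i => by
    have h1 := hcon i
    unfold Triv at h1
    push Not at h1
    obtain ⟨M, m, hm, hM⟩ := h1
    obtain ⟨x, y, hxy⟩ := hM
    exact ⟨M, m, hm, x, y, hxy⟩)
  exact hxy ((h N s hs).elim x y)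

theorem constPrime_one : ConstPrime 1 := by
  intro k T _ hc h
  exact cstTerm_join T hc h

/-- Bases exist and have at most two elements, nullary symbols being allowed. -/
theorem main_any (A : Type) [CommGroup A] [Finite A] :
    (∃ B, IsBasis B (SC anyArity (VG A))) ∧ dim anyArity (VG A) ≤ 2 := by
  refine ⟨?_, ?_⟩
  · have h := isBasis_alpha (k0 := 0) (Nat.zero_le 1) A
    rw [adm_zero] at h
    exact ⟨_, h⟩
  · have h := dim_le (k0 := 0) (Nat.zero_le 1) (fun n hn T hc hl h => pa_prime T hn hc hl h)
      trivPrime constPrime_zero A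
    rwa [adm_zero] at h

/-- Bases exist and have at most two elements, all symbols being of positive arity. -/
theorem main_pos (A : Type) [CommGroup A] [Finite A] :
    (∃ B, IsBasis B (SC posArity (VG A))) ∧ dim posArity (VG A) ≤ 2 :=
  ⟨⟨_, isBasis_alpha (k0 := 1) le_rfl A⟩,
    dim_le (k0 := 1) le_rfl (fun n hn T hc hl h => pa_prime T hn hc hl h)
      trivPrime constPrime_one A⟩

end Pool.Agent.Helper470.DimT
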