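import Pool.Agent.Helper470.DimT.Defs

/-! Module B of `MP_001d24_al`: existence of the layered algebra. -/

namespace Pool.Agent.Helper470.DimT

namespace LayB

/-- Subalgebra generated by a set. -/
inductive Cl {S : Sig} {M : Type} (a : Str S M) (A : Set M) : M → Prop
  | base {x : M} : x ∈ A → Cl a A x
  | op (f : S.Op) (v : Fin (S.ar f) → M) : (∀ i, Cl a A (v i)) → Cl a A (a f v)

/-- `M` is a `T`-model which is free on the subset `G`. -/
structure FreeOn (T : Theory) {M : Type} (a : Str T.sig M) (G : Set M) : Prop where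
  model : T.Models a
  gen : ∀ x, Cl a G x
  lift : ∀ {N : Type} (b : Str T.sig N), T.Models b → ∀ f : M → N,
    ∃ φ : M → N, IsHom a b φ ∧ ∀ g ∈ G, φ g = f g

theorem hcomp {S : Sig} {M N K : Type} {a : Str S M} {b : Str S N} {c : Str S K}
    {φ : M → N} {ψ : N → K} (hψ : IsHom b c ψ) (hφ : IsHom a b φ) :
    IsHom a c (fun x => ψ (φ x)) := by
  intro f v
  show ψ (φ (a f v)) = _
  rw [hφ, hψ]
  rfl

theorem hid {S : Sig} {M : Type} (a : Str S M) : IsHom a a (fun x => x) := by
  intro f v; rfl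

theorem Cl.mono {S : Sig} {M : Type} {a : Str S M} {A B : Set M} (h : A ⊆ B) {x : M}
    (hx : Cl a A x) : Cl a B x := by
  induction hx with
  | base hx => exact Cl.base (h hx)
  | op f v _ ih => exact Cl.op f v ih

theorem Cl.map {S : Sig} {M N : Type} {a : Str S M} {b : Str S N} {φ : M → N}
    (h : IsHom a b φ) {A : Set M} {x : M} (hx : Cl a A x) : Cl b (φ '' A) (φ x) := by
  induction hx with
  | base hx => exact Cl.base ⟨_, hx, rfl⟩
  | op f v _ ih => rw [h]; exact Cl.op f _ ih

/-- Homomorphisms agreeing on a set agree on its closure. -/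
theorem Cl.eqOn {S : Sig} {M N : Type} {a : Str S M} {b : Str S N} {φ ψ : M → N}
    (hφ : IsHom a b φ) (hψ : IsHom a b ψ) {A : Set M} (hA : ∀ y ∈ A, φ y = ψ y) {x : M}
    (hx : Cl a A x) : φ x = ψ x := by
  induction hx with
  | base hx => exact hA _ hx
  | op f v _ ih =>
    rw [hφ, hψ]
    congr 1
    funext i
    exact ih i

/-- An element of the closure of a set is the value of a term with variables in the set. -/
theorem Cl.exists_term {S : Sig} {M : Type} {a : Str S M} {A : Set M} {x : M}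
    (hx : Cl a A x) : ∃ t : Term S M, t.eval a id = x ∧ ∀ g ∈ t.vars, g ∈ A := by
  induction hx with
  | @base x hx =>
    refine ⟨.var x, rfl, ?_⟩
    intro g hg
    simp only [Term.vars, Set.mem_singleton_iff] at hg
    rw [hg]; exact hx
  | op f v _ ih =>
    choose t ht ht2 using ih
    refine ⟨.op f t, ?_, ?_⟩
    · simp only [Term.eval]; congr 1; funext i; exact ht i
    · intro g hg
      simp only [Term.vars, Set.mem_iUnion] at hg
      obtain ⟨i, hi⟩ := hg
      exact ht2 i g hi

/-- A theory having a model with two distinct elements. -/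
def Nontriv (T : Theory) : Prop :=
  ∃ (N : Type) (b : Str T.sig N), T.Models b ∧ ∃ x y : N, x ≠ y

/-- The support of `w`: the generators (other than the base point) really needed for `w`. -/
def supp {S : Sig} {M : Type} (a : Str S M) (G : Set M) (b0 : M) (w : M) : Set M :=
  {g | g ∈ G ∧ g ≠ b0 ∧ ¬ Cl a (G \ {g}) w}

section
variable {T : Theory} {M : Type} {a : Str T.sig M} {G : Set M} {b0 : M}

theorem Cl.exists_finset {S : Sig} {M : Type} {a : Str S M} {A : Set M} {x : M}
    (hx : Cl a A x) : ∃ B : Finset M, (B : Set M) ⊆ A ∧ Cl a (B : Set M) x := by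
  classical
  induction hx with
  | @base x hx => exact ⟨{x}, by simpa using hx, Cl.base (by simp)⟩
  | op f v _ ih =>
    choose B hB hB2 using ih
    refine ⟨Finset.univ.biUnion B, ?_, Cl.op f v fun i => (hB2 i).mono ?_⟩
    · intro y hy
      simp only [Finset.coe_biUnion, Set.mem_iUnion] at hy
      obtain ⟨i, _, hi⟩ := hy
      exact hB i hi
    · intro y hy
      simp only [Finset.coe_biUnion, Set.mem_iUnion]
      exact ⟨i, by simp, hy⟩

theorem supp_sub {w : M} : supp a G b0 w ⊆ G := fun _ h => h.1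

theorem not_base_supp {w : M} : b0 ∉ supp a G b0 w := fun h => h.2.1 rfl

/-- (s2) -/
theorem supp_sub_of_cl {w : M} {B : Set M} (hB : B ⊆ G) (h : Cl a B w) :
    supp a G b0 w ⊆ B := by
  intro g hg
  by_contra hgB
  refine hg.2.2 (Cl.mono ?_ h)
  intro y hy
  exact ⟨hB hy, fun e => hgB ((Set.mem_singleton_iff.1 e) ▸ hy)⟩

theorem supp_sub_of_cl' {w : M} {B : Set M} (hB : B ⊆ G) (hb : b0 ∈ G)
    (h : Cl a (B ∪ {b0}) w) : supp a G b0 w ⊆ B := by
  intro g hg
  rcases supp_sub_of_cl (b0 := b0) (Set.union_subset hB (by simpa using hb)) h hg with h1 | h1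
  · exact h1
  · exact absurd h1 hg.2.1

theorem supp_finite (hF : FreeOn T a G) (w : M) : (supp a G b0 w).Finite := by
  obtain ⟨B, hB, hB2⟩ := (hF.gen w).exists_finset
  exact B.finite_toSet.subset (supp_sub_of_cl hB hB2)

/-- (s1) -/
theorem cl_supp (hF : FreeOn T a G) (hb : b0 ∈ G) (w : M) :
    Cl a (supp a G b0 w ∪ {b0}) w := by
  classical
  have key : ∀ (A : Finset M) (B : Set M), B ⊆ G → (A : Set M) ⊆ G → Cl a (B ∪ A) w →
      Cl a (B ∪ ((A : Set M) ∩ supp a G b0 w) ∪ {b0}) w := by
    intro A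
    induction A using Finset.induction_on with
    | empty =>
      intro B hB _ h
      refine h.mono ?_
      intro y hy
      simp at hy
      simp [hy]
    | insert g A hgA ih =>
      intro B hB hA h
      have hA' : (A : Set M) ⊆ G := fun y hy => hA (by simp [hy] : y ∈ ((insert g A : Finset M) : Set M))
      have hgG : g ∈ G := hA (by simp)
      by_cases hg : g ∈ supp a G b0 w
      · have h1 : Cl a ((B ∪ {g}) ∪ A) w := by
          refine h.mono ?_
          intro y hy
          simp at hy ⊢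
          tauto
        have := ih (B ∪ {g}) (Set.union_subset hB (by simpa using hgG)) hA' h1
        refine this.mono ?_
        intro y hy
        simp at hy ⊢
        rcases hy with hy | hy | hy
        · exact Or.inl hy
        · rcases hy with hy | hy
          · subst hy; exact Or.inr (Or.inr ⟨Or.inl rfl, hg⟩)
          · exact Or.inr (Or.inl hy)
        · exact Or.inr (Or.inr ⟨Or.inr hy.1, hy.2⟩)
      · by_cases hgb : g = b0
        · have h1 : Cl a ((B ∪ {b0}) ∪ A) w := by
            refine h.mono ?_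
            intro y hy
            simp at hy ⊢
            rw [hgb] at hy
            tauto
          have := ih (B ∪ {b0}) (Set.union_subset hB (by simpa using hb)) hA' h1
          refine this.mono ?_
          intro y hy
          simp at hy ⊢
          tauto
        · have hcl : Cl a (G \ {g}) w := by
            by_contra hc
            exact hg ⟨hgG, hgb, hc⟩
          obtain ⟨ρ, hρ, hρ2⟩ := hF.lift a hF.model (fun y => if y = g then b0 else y)
          have e1 : ρ w = w := by
            refine hcl.eqOn hρ (hid a) ?_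
            intro y hy
            rw [hρ2 y hy.1, if_neg (by simpa using hy.2)]
          have h1 : Cl a ((B ∪ {b0}) ∪ A) w := by
            rw [← e1]
            refine (h.map hρ).mono ?_
            rintro _ ⟨y, hy, rfl⟩
            have hyG : y ∈ G := by
              rcases hy with hy | hy
              · exact hB hy
              · exact hA hy
            rw [hρ2 y hyG]
            by_cases hyg : y = g
            · simp [hyg]
            · rw [if_neg hyg]
              simp at hy ⊢
              tauto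
          have := ih (B ∪ {b0}) (Set.union_subset hB (by simpa using hb)) hA' h1
          refine this.mono ?_
          intro y hy
          simp at hy ⊢
          tauto
  obtain ⟨A, hA, hA2⟩ := (hF.gen w).exists_finset
  have := key A ∅ (by simp) hA (hA2.mono (by simp))
  refine this.mono ?_
  intro y hy
  simp at hy ⊢
  tauto

/-- Homs agreeing on the support and the base point agree at `w`. -/
theorem eq_of_supp (hF : FreeOn T a G) (hb : b0 ∈ G) {N : Type} {b : Str T.sig N}
    {φ ψ : M → N} (hφ : IsHom a b φ) (hψ : IsHom a b ψ) {w : M}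
    (h : ∀ g ∈ supp a G b0 w, φ g = ψ g) (h0 : φ b0 = ψ b0) : φ w = ψ w := by
  refine (cl_supp hF hb w).eqOn hφ hψ ?_
  rintro y (hy | hy)
  · exact h y hy
  · rw [Set.mem_singleton_iff.1 hy]; exact h0

theorem gen_not_cl (hT : Nontriv T) (hF : FreeOn T a G) {g : M} (hg : g ∈ G) :
    ¬ Cl a (G \ {g}) g := by
  classical
  intro h
  obtain ⟨N, b, hb, x, y, hxy⟩ := hT
  obtain ⟨φ, hφ, hφ2⟩ := hF.lift b hb (fun _ => x)
  obtain ⟨ψ, hψ, hψ2⟩ := hF.lift b hb (fun z => if z = g then y else x)
  have e : φ g = ψ g := by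
    refine h.eqOn hφ hψ ?_
    intro z hz
    rw [hφ2 z hz.1, hψ2 z hz.1, if_neg (by simpa using hz.2)]
  rw [hφ2 g hg, hψ2 g hg, if_pos rfl] at e
  exact hxy e

/-- (s3) -/
theorem supp_gen (hT : Nontriv T) (hF : FreeOn T a G) {g : M} (hg : g ∈ G) (hgb : g ≠ b0) :
    supp a G b0 g = {g} := by
  apply Set.Subset.antisymm
  · exact supp_sub_of_cl (by simpa using hg) (Cl.base rfl)
  · intro y hy
    rw [Set.mem_singleton_iff.1 hy]
    exact ⟨hg, hgb, gen_not_cl hT hF hg⟩

theorem supp_gen_sub {g : M} (hg : g ∈ G) : supp a G b0 g ⊆ {g} :=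
  supp_sub_of_cl (by simpa using hg) (Cl.base rfl)

theorem supp_base (hb : b0 ∈ G) : supp a G b0 b0 = ∅ := by
  apply Set.eq_empty_of_forall_notMem
  intro g hg
  have := supp_gen_sub (a := a) (b0 := b0) hb hg
  exact hg.2.1 this

/-- (s4) -/
theorem supp_op (hF : FreeOn T a G) (hb : b0 ∈ G) (f : T.sig.Op) (v : Fin (T.sig.ar f) → M) :
    supp a G b0 (a f v) ⊆ ⋃ i, supp a G b0 (v i) := by
  refine supp_sub_of_cl' ?_ hb ?_
  · intro y hy
    simp only [Set.mem_iUnion] at hy
    obtain ⟨i, hi⟩ := hy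
    exact hi.1
  · refine Cl.op f v fun i => (cl_supp hF hb (v i)).mono ?_
    intro y hy
    rcases hy with hy | hy
    · exact Or.inl (Set.mem_iUnion.2 ⟨i, hy⟩)
    · exact Or.inr hy

/-- Supports under homomorphisms (one inclusion). -/
theorem supp_hom_sub (hF : FreeOn T a G) (hb : b0 ∈ G) {ψ : M → M} (hψ : IsHom a a ψ)
    (h0 : ψ b0 = b0) {w : M} (hG : ∀ g ∈ supp a G b0 w, ψ g ∈ G) :
    supp a G b0 (ψ w) ⊆ ψ '' supp a G b0 w := by
  refine supp_sub_of_cl' ?_ hb ?_
  · rintro _ ⟨g, hg, rfl⟩; exact hG g hg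
  · refine ((cl_supp hF hb w).map hψ).mono ?_
    rintro _ ⟨y, hy, rfl⟩
    rcases hy with hy | hy
    · exact Or.inl ⟨y, hy, rfl⟩
    · right; rw [Set.mem_singleton_iff.1 hy, h0]; rfl

theorem exists_retr (hF : FreeOn T a G) (hb : b0 ∈ G) {ψ : M → M} (hψ : IsHom a a ψ)
    (h0 : ψ b0 = b0) {w : M} (hG : ∀ g ∈ supp a G b0 w, ψ g ∈ G)
    (hinj : Set.InjOn ψ (supp a G b0 w ∪ {b0})) :
    ∃ χ : M → M, IsHom a a χ ∧ χ b0 = b0 ∧ (∀ g ∈ supp a G b0 w, χ (ψ g) = g) ∧
      (∀ g ∈ G, χ g ∈ G) ∧ χ (ψ w) = w := by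
  classical
  obtain ⟨χ, hχ, hχ2⟩ := hF.lift a hF.model
    (fun y => if h : ∃ g ∈ supp a G b0 w, ψ g = y then h.choose else b0)
  have k0 : ¬ ∃ g ∈ supp a G b0 w, ψ g = b0 := by
    rintro ⟨g, hg, hgb⟩
    have := hinj (Or.inl hg) (Or.inr rfl) (hgb.trans h0.symm)
    exact hg.2.1 this
  have c0 : χ b0 = b0 := by
    rw [hχ2 b0 hb, dif_neg k0]
  have c1 : ∀ g ∈ supp a G b0 w, χ (ψ g) = g := by
    intro g hg
    have hex : ∃ g' ∈ supp a G b0 w, ψ g' = ψ g := ⟨g, hg, rfl⟩
    rw [hχ2 (ψ g) (hG g hg), dif_pos hex]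
    exact hinj (Or.inl hex.choose_spec.1) (Or.inl hg) hex.choose_spec.2
  refine ⟨χ, hχ, c0, c1, ?_, ?_⟩
  · intro g hg
    rw [hχ2 g hg]
    split_ifs with h
    · exact h.choose_spec.1.1
    · exact hb
  · have := eq_of_supp hF hb (hcomp hχ hψ) (hid a) (w := w) c1 (by simp only [h0, c0])
    exact this

/-- (s5) -/
theorem supp_hom (hF : FreeOn T a G) (hb : b0 ∈ G) {ψ : M → M} (hψ : IsHom a a ψ)
    (h0 : ψ b0 = b0) {w : M} (hG : ∀ g ∈ supp a G b0 w, ψ g ∈ G)
    (hinj : Set.InjOn ψ (supp a G b0 w ∪ {b0})) :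
    supp a G b0 (ψ w) = ψ '' supp a G b0 w := by
  apply Set.Subset.antisymm (supp_hom_sub hF hb hψ h0 hG)
  obtain ⟨χ, hχ, c0, c1, c2, c3⟩ := exists_retr hF hb hψ h0 hG hinj
  rintro _ ⟨g, hg, rfl⟩
  have h1 : supp a G b0 (χ (ψ w)) ⊆ χ '' supp a G b0 (ψ w) :=
    supp_hom_sub hF hb hχ c0 (fun y hy => c2 y hy.1)
  rw [c3] at h1
  obtain ⟨y, hy, hyg⟩ := h1 hg
  obtain ⟨g', hg', rfl⟩ := supp_hom_sub hF hb hψ h0 hG hy
  rw [c1 g' hg'] at hyg
  rwa [hyg] at hy

/-- (s6) -/
theorem not_gen_hom (hF : FreeOn T a G) (hb : b0 ∈ G) {ψ : M → M} (hψ : IsHom a a ψ)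
    (h0 : ψ b0 = b0) {w : M} (hG : ∀ g ∈ supp a G b0 w, ψ g ∈ G)
    (hinj : Set.InjOn ψ (supp a G b0 w ∪ {b0})) (hw : w ∉ G) : ψ w ∉ G := by
  obtain ⟨χ, hχ, c0, c1, c2, c3⟩ := exists_retr hF hb hψ h0 hG hinj
  intro h
  exact hw (c3 ▸ c2 _ h)

end

/-! ### The free algebra on a type -/

/-- Simultaneous substitution. -/
def subst {S : Sig} {V W : Type} (σ : V → Term S W) : Term S V → Term S W
  | .var x => σ x
  | .op f a => .op f (fun i => subst σ (a i))

theorem eval_subst {S : Sig} {V W M : Type} (m : Str S M) (v : W → M) (σ : V → Term S W)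
    (t : Term S V) : (subst σ t).eval m v = t.eval m (fun x => (σ x).eval m v) := by
  induction t with
  | var x => rfl
  | op f a ih =>
    simp only [subst, Term.eval]
    congr 1
    funext i
    exact ih i

theorem eval_hom' {S : Sig} {V M N : Type} {a : Str S M} {b : Str S N} {φ : M → N}
    (h : IsHom a b φ) (ρ : V → M) (t : Term S V) :
    φ (t.eval a ρ) = t.eval b (fun v => φ (ρ v)) := by
  induction t with
  | var v => rfl
  | op f t ih =>
    simp only [Term.eval]
    rw [h]
    congr 1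
    funext i
    exact ih i

/-- Equality in all models. -/
def faSetoid (T : Theory) (V : Type) : Setoid (Term T.sig V) where
  r t t' := ∀ (N : Type) (s : Str T.sig N), T.Models s → ∀ v : V → N, t.eval s v = t'.eval s v
  iseqv := ⟨fun _ _ _ _ _ => rfl, fun h N s hs v => (h N s hs v).symm,
    fun h h' N s hs v => (h N s hs v).trans (h' N s hs v)⟩

/-- The free algebra. -/
def FA (T : Theory) (V : Type) : Type := Quotient (faSetoid T V)

def FA.mk {T : Theory} {V : Type} (t : Term T.sig V) : FA T V := Quotient.mk (faSetoid T V) t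

noncomputable def FA.rep {T : Theory} {V : Type} (q : FA T V) : Term T.sig V :=
  Quotient.out (s := faSetoid T V) q

theorem FA.mk_rep {T : Theory} {V : Type} (q : FA T V) : FA.mk q.rep = q :=
  Quotient.out_eq (s := faSetoid T V) q

theorem FA.sound {T : Theory} {V : Type} {t t' : Term T.sig V}
    (h : ∀ (N : Type) (s : Str T.sig N), T.Models s → ∀ v : V → N, t.eval s v = t'.eval s v) :
    FA.mk t = FA.mk t' := Quotient.sound (s := faSetoid T V) h

theorem FA.exact {T : Theory} {V : Type} {t t' : Term T.sig V} (h : FA.mk t = FA.mk t') :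
    ∀ (N : Type) (s : Str T.sig N), T.Models s → ∀ v : V → N, t.eval s v = t'.eval s v :=
  Quotient.exact (s := faSetoid T V) h

theorem FA.rep_mk {T : Theory} {V : Type} (t : Term T.sig V) {N : Type} (s : Str T.sig N)
    (hs : T.Models s) (v : V → N) : (FA.rep (FA.mk t)).eval s v = t.eval s v :=
  FA.exact (FA.mk_rep (FA.mk t)) N s hs v

noncomputable def FA.str (T : Theory) (V : Type) : Str T.sig (FA T V) :=
  fun f a => FA.mk (.op f (fun i => (a i).rep))

theorem FA.str_mk {T : Theory} {V : Type} (f : T.sig.Op) (a : Fin (T.sig.ar f) → Term T.sig V) :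
    FA.str T V f (fun i => FA.mk (a i)) = FA.mk (.op f a) := by
  apply FA.sound
  intro N s hs v
  simp only [Term.eval]
  congr 1
  funext i
  exact FA.rep_mk _ s hs v

theorem FA.eval_str {T : Theory} {V W : Type} (v : W → FA T V) (t : Term T.sig W) :
    t.eval (FA.str T V) v = FA.mk (subst (fun x => (v x).rep) t) := by
  induction t with
  | var x => simp only [Term.eval, subst]; exact (FA.mk_rep _).symm
  | op f a ih =>
    simp only [Term.eval, subst]
    rw [← FA.str_mk]
    congr 1
    funext i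
    exact ih i

theorem FA.models (T : Theory) (V : Type) : T.Models (FA.str T V) := by
  intro e he v
  rw [FA.eval_str, FA.eval_str]
  apply FA.sound
  intro N s hs u
  rw [eval_subst, eval_subst]
  exact hs e he _

/-- The free generators. -/
def FA.var {T : Theory} {V : Type} (x : V) : FA T V := FA.mk (.var x)

theorem FA.cl {T : Theory} {V : Type} (q : FA T V) :
    Cl (FA.str T V) (Set.range (FA.var (T := T) (V := V))) q := by
  rw [← FA.mk_rep q]
  generalize q.rep = t
  induction t with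
  | var x => exact Cl.base ⟨x, rfl⟩
  | op f a ih =>
    rw [← FA.str_mk]
    exact Cl.op f _ ih

theorem FA.lift {T : Theory} {V N : Type} (b : Str T.sig N) (hb : T.Models b) (f : V → N) :
    ∃ φ : FA T V → N, IsHom (FA.str T V) b φ ∧ ∀ x, φ (FA.var x) = f x := by
  refine ⟨fun q => q.rep.eval b f, ?_, ?_⟩
  · intro g a
    show (FA.rep (FA.mk _)).eval b f = _
    rw [FA.rep_mk _ b hb]
    rfl
  · intro x
    show (FA.rep (FA.mk _)).eval b f = _
    rw [FA.rep_mk _ b hb]
    rfl

theorem FA.var_inj {T : Theory} (hT : Nontriv T) {V : Type} :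
    Function.Injective (FA.var (T := T) (V := V)) := by
  classical
  intro x y h
  by_contra hne
  obtain ⟨N, b, hb, p, q, hpq⟩ := hT
  obtain ⟨φ, _, hφ⟩ := FA.lift b hb (fun z : V => if z = x then p else q)
  have h1 := hφ x
  have h2 := hφ y
  rw [if_pos rfl] at h1
  rw [if_neg (Ne.symm hne), ← h] at h2
  exact hpq (h1.symm.trans h2)

theorem Term.toW_inj (S : Sig) (V : Type) : ∃ F : Term S V →
    WType (fun x : V ⊕ S.Op => Sum.elim (fun _ => Fin 0) (fun f => Fin (S.ar f)) x),
    Function.Injective F := by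
  let F : Term S V → WType (fun x : V ⊕ S.Op =>
      Sum.elim (fun _ => Fin 0) (fun f => Fin (S.ar f)) x) := fun t =>
    Term.rec (motive := fun _ => WType (fun x : V ⊕ S.Op =>
      Sum.elim (fun _ => Fin 0) (fun f => Fin (S.ar f)) x))
      (fun v => WType.mk (Sum.inl v) (fun i => Fin.elim0 i))
      (fun f _ ih => WType.mk (Sum.inr f) ih) t
  refine ⟨F, ?_⟩
  intro t
  induction t with
  | var x =>
    intro t' h
    cases t' with
    | var y =>
      have h' : WType.mk (Sum.inl x) _ = WType.mk (Sum.inl y) _ := h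
      have := (WType.mk.inj h').1
      rw [Sum.inl.inj this]
    | op g b =>
      have h' : WType.mk (Sum.inl x) _ = WType.mk (Sum.inr g) _ := h
      exact absurd (WType.mk.inj h').1 (by simp)
  | op f a ih =>
    intro t' h
    cases t' with
    | var y =>
      have h' : WType.mk (Sum.inr f) _ = WType.mk (Sum.inl y) _ := h
      exact absurd (WType.mk.inj h').1 (by simp)
    | op g b =>
      have h' : WType.mk (Sum.inr f) (fun i => F (a i)) = WType.mk (Sum.inr g) (fun i => F (b i)) := h
      have e1 := (WType.mk.inj h').1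
      obtain rfl := Sum.inr.inj e1
      have e2 := eq_of_heq (WType.mk.inj h').2
      congr 1
      funext i
      exact ih i (congrFun e2 i)

theorem countable_term (S : Sig) (V : Type) [Countable S.Op] [Countable V] :
    Countable (Term S V) := by
  classical
  obtain ⟨F, hF⟩ := Term.toW_inj S V
  have : Encodable (V ⊕ S.Op) := Encodable.ofCountable _
  have : ∀ x : V ⊕ S.Op, Fintype (Sum.elim (fun _ => Fin 0) (fun f => Fin (S.ar f)) x) := by
    rintro (x | x)
    · exact (inferInstance : Fintype (Fin 0))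
    · exact (inferInstance : Fintype (Fin (S.ar x)))
  have : ∀ x : V ⊕ S.Op, Encodable (Sum.elim (fun _ => Fin 0) (fun f => Fin (S.ar f)) x) := by
    rintro (x | x)
    · exact (inferInstance : Encodable (Fin 0))
    · exact (inferInstance : Encodable (Fin (S.ar x)))
  exact hF.countable

theorem countable_FA (T : Theory) (V : Type) [Countable T.sig.Op] [Countable V] :
    Countable (FA T V) := by
  have := countable_term T.sig V
  exact (inferInstance : Countable (Quotient (faSetoid T V)))

/-! ### Transport along a bijection -/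

theorem models_of_equiv {T : Theory} {A B : Type} (E : A ≃ B) {s : Str T.sig A}
    (hs : T.Models s) : T.Models (fun f a => E (s f (fun i => E.symm (a i)))) := by
  have key : ∀ (V : Type) (v : V → B) (t : Term T.sig V),
      t.eval (fun f a => E (s f (fun i => E.symm (a i)))) v =
        E (t.eval s (fun x => E.symm (v x))) := by
    intro V v t
    induction t with
    | var x => simp [Term.eval]
    | op f a ih =>
      simp only [Term.eval]
      congr 2
      funext i
      rw [ih i, Equiv.symm_apply_apply]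
  intro e he v
  rw [key, key, hs e he]

theorem freeOn_transport {T : Theory} {A B : Type} (E : A ≃ B) {s : Str T.sig A} {G : Set A}
    (h : FreeOn T s G) :
    FreeOn T (fun f a => E (s f (fun i => E.symm (a i)))) (E '' G) := by
  have hE : IsHom s (fun f a => E (s f (fun i => E.symm (a i)))) E := by
    intro f a
    simp
  have hE' : IsHom (fun f a => E (s f (fun i => E.symm (a i)))) s E.symm := by
    intro f a
    simp [Function.comp_def]
  refine ⟨models_of_equiv E h.model, ?_, ?_⟩
  · intro x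
    have := (h.gen (E.symm x)).map hE
    simpa using this
  · intro N b hb f
    obtain ⟨φ, hφ, hφ2⟩ := h.lift b hb (fun x => f (E x))
    refine ⟨fun x => φ (E.symm x), hcomp hφ hE', ?_⟩
    rintro _ ⟨g, hg, rfl⟩
    simp [hφ2 g hg]

theorem freeOn_FA (T : Theory) (V : Type) :
    FreeOn T (FA.str T V) (Set.range (FA.var (T := T) (V := V))) := by
  classical
  refine ⟨FA.models T V, FA.cl, ?_⟩
  intro N b hb f
  obtain ⟨φ, hφ, hφ2⟩ := FA.lift b hb (fun x : V => f (FA.var x))
  refine ⟨φ, hφ, ?_⟩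
  rintro _ ⟨x, rfl⟩
  exact hφ2 x

theorem exists_prelayered (T : Bool → Theory) (hc : ∀ i, Countable (T i).sig.Op)
    (hn : ∀ i, Nontriv (T i)) :
    ∃ (M : Type) (m : ∀ i, Str (T i).sig M) (x : ℕ → M) (G : Bool → Set M),
      Function.Injective x ∧ (∀ c i, c ∈ G i ∨ c ∈ G (!i)) ∧
      (∀ c, (∀ i, c ∈ G i) ↔ c ∈ Set.range x) ∧ ∀ i, FreeOn (T i) (m i) (G i) := by
  classical
  let NV : Bool → Type := fun i => {q : FA (T i) ℕ // q ∉ Set.range (FA.var (T := T i) (V := ℕ))}
  let M : Type := ℕ ⊕ (Σ i : Bool, NV i)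
  let G : Bool → Set M := fun i => {w | ∀ n : NV i, w ≠ Sum.inr ⟨i, n⟩}
  have : ∀ i, Countable (FA (T i) ℕ) := fun i => haveI := hc i; countable_FA (T i) ℕ
  have : ∀ i, Countable (NV i) := fun i => inferInstance
  have : Countable M := inferInstance
  have hx : ∀ k i, (Sum.inl k : M) ∈ G i := by
    intro k i n h
    exact absurd h (by simp)
  have hinf : ∀ i, Infinite (G i) := by
    intro i
    refine Infinite.of_injective (fun k : ℕ => (⟨Sum.inl k, hx k i⟩ : G i)) ?_
    intro k l h
    exact Sum.inl.inj (Subtype.ext_iff.1 h)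
  have he : ∀ i, Nonempty (ℕ ≃ G i) := fun i => by
    have := hinf i
    exact nonempty_equiv_of_countable
  let e : ∀ i, ℕ ≃ G i := fun i => (he i).some
  let E0 : ∀ i, FA (T i) ℕ → M := fun i q =>
    if h : ∃ k, FA.var k = q then (e i h.choose : M)
    else Sum.inr ⟨i, ⟨q, by rintro ⟨k, hk⟩; exact h ⟨k, hk⟩⟩⟩
  have E0v : ∀ i k, E0 i (FA.var k) = (e i k : M) := by
    intro i k
    have h : ∃ k', FA.var k' = (FA.var k : FA (T i) ℕ) := ⟨k, rfl⟩
    simp only [E0]
    rw [dif_pos h]
    rw [FA.var_inj (hn i) h.choose_spec]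
  have E0n : ∀ i (q : FA (T i) ℕ) (h : q ∉ Set.range (FA.var (T := T i) (V := ℕ))),
      E0 i q = Sum.inr ⟨i, ⟨q, h⟩⟩ := by
    intro i q h
    have h' : ¬ ∃ k, FA.var k = q := fun ⟨k, hk⟩ => h ⟨k, hk⟩
    simp only [E0]
    rw [dif_neg h']
  have E0b : ∀ i, Function.Bijective (E0 i) := by
    intro i
    constructor
    · intro p q hpq
      by_cases hp : p ∈ Set.range (FA.var (T := T i) (V := ℕ))
      · obtain ⟨k, rfl⟩ := hp
        by_cases hq : q ∈ Set.range (FA.var (T := T i) (V := ℕ))
        · obtain ⟨l, rfl⟩ := hq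
          rw [E0v, E0v] at hpq
          rw [(e i).injective (Subtype.ext hpq)]
        · rw [E0v, E0n i q hq] at hpq
          exact absurd hpq ((e i k).2 _)
      · by_cases hq : q ∈ Set.range (FA.var (T := T i) (V := ℕ))
        · obtain ⟨l, rfl⟩ := hq
          rw [E0v, E0n i p hp] at hpq
          exact absurd hpq.symm ((e i l).2 _)
        · rw [E0n i q hq, E0n i p hp] at hpq
          exact Subtype.ext_iff.1 (eq_of_heq (Sigma.mk.inj (Sum.inr.inj hpq)).2)
    · intro w
      by_cases hw : w ∈ G i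
      · refine ⟨FA.var ((e i).symm ⟨w, hw⟩), ?_⟩
        rw [E0v]; simp
      · have : ∃ n : NV i, w = Sum.inr ⟨i, n⟩ := by
          by_contra h
          exact hw (fun n hn => h ⟨n, hn⟩)
        obtain ⟨⟨q, hq⟩, rfl⟩ := this
        exact ⟨q, E0n i q hq⟩
  let E : ∀ i, FA (T i) ℕ ≃ M := fun i => Equiv.ofBijective (E0 i) (E0b i)
  have hG : ∀ i, E i '' Set.range (FA.var (T := T i) (V := ℕ)) = G i := by
    intro i
    ext w
    constructor
    · rintro ⟨_, ⟨k, rfl⟩, rfl⟩
      show E0 i _ ∈ _
      rw [E0v]; exact (e i k).2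
    · intro hw
      refine ⟨FA.var ((e i).symm ⟨w, hw⟩), ⟨_, rfl⟩, ?_⟩
      show E0 i _ = _
      rw [E0v]; simp
  refine ⟨M, fun i => (fun f a => E i (FA.str (T i) ℕ f (fun k => (E i).symm (a k)))),
    Sum.inl, G, Sum.inl_injective, ?_, ?_, ?_⟩
  · intro c i
    rcases c with k | ⟨j, n⟩
    · exact Or.inl (hx k i)
    · by_cases hij : j = i
      · subst hij
        right
        intro n' h
        have := Sum.inr.inj h
        simp at this
      · left
        intro n' h
        have := Sum.inr.inj h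
        simp at this
        exact hij this.1
  · intro c
    constructor
    · intro h
      rcases c with k | ⟨j, n⟩
      · exact ⟨k, rfl⟩
      · exact absurd rfl (h j n)
    · rintro ⟨k, rfl⟩ i
      exact hx k i
  · intro i
    have := freeOn_transport (E i) (freeOn_FA (T i) ℕ)
    rw [hG i] at this
    exact this

/-- Hereditary elements of bounded depth. -/
inductive Hn {T : Bool → Theory} {M : Type} (m : ∀ i, Str (T i).sig M) (x : ℕ → M)
    (G : Bool → Set M) : ℕ → M → Prop
  | gen (k j : ℕ) : Hn m x G k (x j)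
  | step (k : ℕ) (i : Bool) (w : M) (hw : w ∉ G i)
      (h : ∀ g ∈ supp (m i) (G i) (x 0) w, Hn m x G k g) : Hn m x G (k + 1) w

section
variable {T : Bool → Theory} {M : Type} {m : ∀ i, Str (T i).sig M} {x : ℕ → M}
  {G : Bool → Set M}

theorem Hn.mono {k : ℕ} {w : M} (h : Hn m x G k w) : ∀ {l : ℕ}, k ≤ l → Hn m x G l w := by
  induction h with
  | gen k j => intro l _; exact Hn.gen l j
  | step k i w hw h ih =>
    intro l hl
    obtain ⟨l', rfl⟩ : ∃ l', l = l' + 1 := ⟨l - 1, by omega⟩
    exact Hn.step l' i w hw fun g hg => ih g hg (by omega)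

theorem Hn.inv (hU : ∀ c i, c ∈ G i ∨ c ∈ G (!i)) (hx : ∀ k i, x k ∈ G i) {k : ℕ} {w : M}
    (h : Hn m x G k w) {i : Bool} (hw : w ∉ G i) :
    ∃ k', k = k' + 1 ∧ ∀ g ∈ supp (m i) (G i) (x 0) w, Hn m x G k' g := by
  cases h with
  | gen k j => exact absurd (hx j i) hw
  | step k i' w hw' h =>
    have : i' = i := by
      by_contra hne
      have hi : i' = !i := by cases i <;> cases i' <;> simp_all
      subst hi
      rcases hU w i with h1 | h1
      · exact hw h1
      · exact hw' h1
    subst this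
    exact ⟨k, rfl, h⟩

theorem Hn.closed (hT : ∀ i, Nontriv (T i)) (hU : ∀ c i, c ∈ G i ∨ c ∈ G (!i))
    (hx : ∀ k i, x k ∈ G i) (hF : ∀ i, FreeOn (T i) (m i) (G i)) (i : Bool)
    (f : (T i).sig.Op) (v : Fin ((T i).sig.ar f) → M) (h : ∀ j, ∃ k, Hn m x G k (v j)) :
    ∃ k, Hn m x G k (m i f v) := by
  classical
  choose k hk using h
  let K := Finset.univ.sup k
  have hK : ∀ j, Hn m x G K (v j) := fun j => (hk j).mono (Finset.le_sup (Finset.mem_univ j))
  have key : ∀ g ∈ supp (m i) (G i) (x 0) (m i f v), Hn m x G K g := by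
    intro g hg
    have := supp_op (hF i) (hx 0 i) f v hg
    simp only [Set.mem_iUnion] at this
    obtain ⟨j, hj⟩ := this
    by_cases hv : v j ∈ G i
    · have := supp_gen_sub hv hj
      rw [Set.mem_singleton_iff.1 this]
      exact hK j
    · obtain ⟨k', hk', h'⟩ := (hK j).inv hU hx hv
      exact (h' g hj).mono (by omega)
  by_cases hw : m i f v ∈ G i
  · by_cases h0 : m i f v = x 0
    · rw [h0]; exact ⟨0, Hn.gen 0 0⟩
    · refine ⟨K, key _ ?_⟩
      rw [supp_gen (hT i) (hF i) hw h0]
      rfl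
  · exact ⟨K + 1, Hn.step K i _ hw key⟩

end

end LayB

open LayB in
/-- MODULE B: existence of the layered algebra. -/
theorem exists_layered (T : Bool → Theory) (hc : ∀ i, Countable (T i).sig.Op)
    (hn : ∀ i, ∃ (N : Type) (s : Str (T i).sig N), (T i).Models s ∧ Nontrivial N) :
    Nonempty (Layered T) := by
  classical
  have hT : ∀ i, Nontriv (T i) := by
    intro i
    obtain ⟨N, s, hs, hN⟩ := hn i
    exact ⟨N, s, hs, hN.exists_pair_ne⟩
  obtain ⟨M, m, x, G, hxi, hU, hI, hF⟩ := exists_prelayered T hc hT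
  have hx : ∀ k i, x k ∈ G i := fun k i => (hI (x k)).2 ⟨k, rfl⟩ i
  let F : Type := {w : M // ∃ k, Hn m x G k w}
  let m' : ∀ i, Str (T i).sig F := fun i f v =>
    ⟨m i f (fun j => (v j).1), Hn.closed hT hU hx hF i f _ (fun j => (v j).2)⟩
  let rank : F → ℕ := fun w => Nat.find w.2
  have hev : ∀ i (V : Type) (v : V → F) (t : Term (T i).sig V),
      (t.eval (m' i) v).1 = t.eval (m i) (fun y => (v y).1) := by
    intro i V v t
    induction t with
    | var y => rfl
    | op f a ih =>
      show m i f _ = m i f _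
      congr 1
      funext j
      exact ih j
  have hcl : ∀ i (A : Set M), (∀ y ∈ A, ∃ k, Hn m x G k y) → ∀ w, Cl (m i) A w →
      ∃ hw : ∃ k, Hn m x G k w, Cl (m' i) {y | y.1 ∈ A} (⟨w, hw⟩ : F) := by
    intro i A hA w hw
    induction hw with
    | @base y hy => exact ⟨hA y hy, Cl.base hy⟩
    | op f v _ ih =>
      choose h1 h2 using ih
      exact ⟨Hn.closed hT hU hx hF i f v h1, Cl.op f (fun j => (⟨v j, h1 j⟩ : F)) h2⟩
  refine ⟨{
    M := F
    m := m'
    models := ?_
    x := fun k => ⟨x k, 0, Hn.gen 0 k⟩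
    x_inj := fun k l h => hxi (Subtype.ext_iff.1 h)
    G := fun i => {w | w.1 ∈ G i}
    union := fun c i => hU c.1 i
    inter := ?_
    rank := rank
    gen := ?_
    free := ?_ }⟩
  · intro i e he v
    apply Subtype.ext
    rw [hev, hev]
    exact (hF i).model e he _
  · intro c
    constructor
    · intro h
      obtain ⟨k, hk⟩ := (hI c.1).1 h
      exact ⟨k, Subtype.ext hk⟩
    · rintro ⟨k, rfl⟩ i
      exact hx k i
  · intro i c hc'
    obtain ⟨k', hk', hs⟩ := (Nat.find_spec c.2).inv hU hx (i := i) hc'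
    have hlt : ∀ g (hg : g ∈ supp (m i) (G i) (x 0) c.1 ∪ {x 0}),
        ∃ h : ∃ k, Hn m x G k g, rank (⟨g, h⟩ : F) < rank c := by
      intro g hg
      rcases hg with hg | hg
      · refine ⟨⟨k', hs g hg⟩, ?_⟩
        have : rank (⟨g, ⟨k', hs g hg⟩⟩ : F) ≤ k' := Nat.find_min' _ (hs g hg)
        have h2 : rank c = k' + 1 := hk'
        omega
      · rw [Set.mem_singleton_iff.1 hg]
        refine ⟨⟨0, Hn.gen 0 0⟩, ?_⟩
        have : rank (⟨x 0, ⟨0, Hn.gen 0 0⟩⟩ : F) ≤ 0 := Nat.find_min' _ (Hn.gen 0 0)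
        have h2 : rank c = k' + 1 := hk'
        omega
    obtain ⟨hw, hcl'⟩ := hcl i (supp (m i) (G i) (x 0) c.1 ∪ {x 0})
      (fun y hy => (hlt y hy).1) c.1 (cl_supp (hF i) (hx 0 i) c.1)
    obtain ⟨t, ht, ht2⟩ := hcl'.exists_term
    refine ⟨t, ht, ?_⟩
    intro g hg
    have hg' : g.1 ∈ supp (m i) (G i) (x 0) c.1 ∪ {x 0} := ht2 g hg
    refine ⟨?_, (hlt g.1 hg').2⟩
    rcases hg' with h | h
    · exact h.1
    · show g.1 ∈ G i
      rw [Set.mem_singleton_iff.1 h]; exact hx 0 i
  · intro i N n hN φ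
    obtain ⟨h, hh, hh2⟩ := (hF i).lift n hN
      (fun w => if hw : ∃ k, Hn m x G k w then φ ⟨w, hw⟩ else φ ⟨x 0, 0, Hn.gen 0 0⟩)
    refine ⟨fun w => h w.1, ?_, ?_⟩
    · intro f a
      show h (m i f (fun j => (a j).1)) = _
      rw [hh]
      rfl
    · intro g hg
      show h g.1 = φ g
      rw [hh2 g.1 hg, dif_pos g.2]

end Pool.Agent.Helper470.DimT
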