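import Pool.Agent.Helper470.DimT.Stmt

/-!
Auxiliary definitions for `MP_001d24_al` (dimension of varieties generated by finite abelian
groups).
-/

namespace Pool.Agent.Helper470.DimT

/-- Variables of a term. -/
def Term.vars {S : Sig} {V : Type} : Term S V → Set V
  | .var x => {x}
  | .op _ a => ⋃ i, (a i).vars

/-- Homomorphisms. -/
def IsHom {S : Sig} {M N : Type} (m : Str S M) (n : Str S N) (h : M → N) : Prop :=
  ∀ f a, h (m f a) = n f (h ∘ a)

/-- A layered algebra: the structure of the free algebra (on `x 0, x 1, ...`) of the join of two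
disjoint theories `T true`, `T false`.  `G i` is the set of `T i`-free generators; the complement
of `G i` consists of the elements whose outer layer is a `T i`-layer. -/
structure Layered (T : Bool → Theory) where
  M : Type
  m : ∀ i, Str (T i).sig M
  models : ∀ i, (T i).Models (m i)
  x : ℕ → M
  x_inj : Function.Injective x
  G : Bool → Set M
  union : ∀ c i, c ∈ G i ∨ c ∈ G (!i)
  inter : ∀ c, (∀ i, c ∈ G i) ↔ c ∈ Set.range x
  rank : M → ℕ
  gen : ∀ i c, c ∉ G i → ∃ t : Term (T i).sig M, t.eval (m i) id = c ∧
    ∀ g ∈ t.vars, g ∈ G i ∧ rank g < rank c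
  free : ∀ i (N : Type) (n : Str (T i).sig N), (T i).Models n → ∀ φ : M → N,
    ∃ h, IsHom (m i) n h ∧ ∀ g ∈ G i, h g = φ g

end Pool.Agent.Helper470.DimT
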