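import Pool.Agent.Helper470.DimT.Defs
import Pool.Agent.Helper470.Dim.World

/-! Parametric affine terms, linear models, joins of families of theories. -/

namespace Pool.Agent.Helper470.DimT

open Pool.Agent.Helper470.Dim (IsAff)

/-- `T` has an `(n+1)`-ary parametric affine term: for every value of the parameter it is the sum
of an abelian group structure of exponent dividing `n`. -/
def PA (T : Theory) (n : ℕ) : Prop :=
  ∃ t : Term T.sig (Fin (n + 1) ⊕ Unit), ∀ (M : Type) (m : Str T.sig M), T.Models m → ∀ b : M,
    IsAff n (fun a => t.eval m (Sum.elim a (fun _ => b)))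

/-- The linear structure on `ZMod n` with given coefficients. -/
def linStr {S : Sig} {n : ℕ} (c : (f : S.Op) → Fin (S.ar f) → ZMod n) : Str S (ZMod n) :=
  fun f a => ∑ i, c f i * a i

/-- `T` has a linear model on `ZMod n`. -/
def HasLin (T : Theory) (n : ℕ) : Prop :=
  ∃ c : (f : T.sig.Op) → Fin (T.sig.ar f) → ZMod n, T.Models (linStr c)

section

variable {ι : Type} (T : ι → Theory)

/-- Disjoint union of signatures. -/
def joinSig : Sig where
  Op := Σ i, (T i).sig.Op
  ar := fun f => (T f.1).sig.ar f.2

/-- Inclusion of terms. -/
def joinTm (i : ι) {V : Type} : Term (T i).sig V → Term (joinSig T) V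
  | .var x => .var x
  | .op f a => .op (⟨i, f⟩ : (joinSig T).Op) (fun k => joinTm i (a k))

/-- The join of a family of theories with pairwise disjoint signatures. -/
def join : Theory where
  sig := joinSig T
  ids := {e | ∃ i, ∃ e' ∈ (T i).ids, e = (joinTm T i e'.1, joinTm T i e'.2)}

variable {T}

/-- A family of structures is a structure for the joined signature. -/
def joinStr {M : Type} (m : ∀ i, Str (T i).sig M) : Str (join T).sig M := fun f => m f.1 f.2

/-- The components of a structure for the joined signature. -/
def compStr {M : Type} (s : Str (join T).sig M) (i : ι) : Str (T i).sig M := fun f => s ⟨i, f⟩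

theorem joinStr_compStr {M : Type} (s : Str (join T).sig M) : joinStr (compStr s) = s := rfl

theorem compStr_joinStr {M : Type} (m : ∀ i, Str (T i).sig M) : compStr (joinStr m) = m := rfl

theorem eval_joinTm {M V : Type} (s : Str (join T).sig M) (v : V → M) (i : ι)
    (t : Term (T i).sig V) : (joinTm T i t).eval s v = t.eval (compStr s i) v := by
  induction t with
  | var x => rfl
  | op f a ih =>
    show s ⟨i, f⟩ _ = s ⟨i, f⟩ _
    congr 1
    funext k
    exact ih k

theorem join_models {M : Type} (s : Str (join T).sig M) :
    (join T).Models s ↔ ∀ i, (T i).Models (compStr s i) := by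
  constructor
  · intro h i e he v
    have := h (joinTm T i e.1, joinTm T i e.2) ⟨i, e, he, rfl⟩ v
    rwa [eval_joinTm, eval_joinTm] at this
  · rintro h _ ⟨i, e, he, rfl⟩ v
    show (joinTm T i e.1).eval s v = (joinTm T i e.2).eval s v
    rw [eval_joinTm, eval_joinTm]
    exact h i e he v

theorem isHom_join {M N : Type} {s : Str (join T).sig M} {s' : Str (join T).sig N} {h : M → N} :
    IsHom s s' h ↔ ∀ i, IsHom (compStr s i) (compStr s' i) h :=
  ⟨fun H i f a => H ⟨i, f⟩ a, fun H f a => H f.1 f.2 a⟩

end

end Pool.Agent.Helper470.DimT
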