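import Pool.Agent.Helper470.DimT.B
import Pool.Agent.Helper470.DimT.PA

/-! Glue: from the layered algebra of two theories to the abstract core statement. -/

namespace Pool.Agent.Helper470.DimT

open Pool.Agent.Helper470.Dim (IsAff World CoreStatement Out)
open LayB (Cl FreeOn Nontriv hcomp hid)

namespace G1

section
variable {T : Theory} {F : Type} {m : Str T.sig F} {G : Set F}

/-- The generators on which `a` depends. -/
def sup (m : Str T.sig F) (G : Set F) (a : F) : Set F :=
  {g | g ∈ G ∧ ∃ (B : Type) (s : Str T.sig B), T.Models s ∧ ∃ k k' : F → B,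
    IsHom m s k ∧ IsHom m s k' ∧ (∀ x ∈ G, x ≠ g → k x = k' x) ∧ k a ≠ k' a}

theorem sup_sub {a : F} : sup m G a ⊆ G := fun _ h => h.1

theorem sup_sub_of_cl {a : F} {A : Set F} (hA : A ⊆ G) (h : Cl m A a) : sup m G a ⊆ A := by
  rintro g ⟨_, B, s, _, k, k', hk, hk', hx, hne⟩
  by_contra hgA
  refine hne (h.eqOn hk hk' ?_)
  intro y hy
  exact hx y (hA hy) (fun e => hgA (e ▸ hy))

theorem sup_ext (hF : FreeOn T m G) {B : Type} {s : Str T.sig B} (hs : T.Models s)
    {φ ψ : F → B} (hφ : IsHom m s φ) (hψ : IsHom m s ψ) {a : F}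
    (h : ∀ g ∈ sup m G a, φ g = ψ g) : φ a = ψ a := by
  classical
  have key : ∀ (A : Finset F), (A : Set F) ⊆ G → ∀ φ : F → B, IsHom m s φ →
      (∀ g ∈ sup m G a, φ g = ψ g) → (∀ g ∈ G, g ∉ A → φ g = ψ g) → φ a = ψ a := by
    intro A
    induction A using Finset.induction_on with
    | empty =>
      intro _ φ hφ _ h2
      exact (hF.gen a).eqOn hφ hψ (fun y hy => h2 y hy (by simp))
    | insert g A hgA ih =>
      intro hA φ hφ h1 h2
      have hgG : g ∈ G := hA (by simp)
      obtain ⟨χ, hχ, hχ2⟩ := hF.lift s hs (fun y => if y = g then ψ g else φ y)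
      have e1 : φ a = χ a := by
        by_contra hne
        have hgs : g ∈ sup m G a := by
          refine ⟨hgG, B, s, hs, φ, χ, hφ, hχ, ?_, hne⟩
          intro x hx hxg
          rw [hχ2 x hx, if_neg hxg]
        apply hne
        refine (hF.gen a).eqOn hφ hχ ?_
        intro y hy
        rw [hχ2 y hy]
        split_ifs with h3
        · rw [h3]; exact h1 g hgs
        · rfl
      rw [e1]
      refine ih (fun y hy => hA (by simp [hy] : y ∈ ((insert g A : Finset F) : Set F))) χ hχ ?_ ?_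
      · intro y hy
        rw [hχ2 y hy.1]
        split_ifs with h3
        · rw [h3]
        · exact h1 y hy
      · intro y hy hyA
        rw [hχ2 y hy]
        split_ifs with h3
        · rw [h3]
        · exact h2 y hy (by simp [h3, hyA])
  obtain ⟨A, hA, hA2⟩ := (hF.gen a).exists_finset
  obtain ⟨χ, hχ, hχ2⟩ := hF.lift s hs (fun y => if y ∈ A then φ y else ψ y)
  have e1 : χ a = φ a := by
    refine hA2.eqOn hχ hφ ?_
    intro y hy
    rw [hχ2 y (hA hy), if_pos (by exact_mod_cast hy)]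
  rw [← e1]
  refine key A hA χ hχ ?_ ?_
  · intro y hy
    rw [hχ2 y hy.1]
    split_ifs with h3
    · exact h y hy
    · rfl
  · intro y hy hyA
    rw [hχ2 y hy, if_neg hyA]

theorem sup_finite (hF : FreeOn T m G) (a : F) : (sup m G a).Finite := by
  obtain ⟨B, hB, hB2⟩ := (hF.gen a).exists_finset
  exact B.finite_toSet.subset (sup_sub_of_cl hB hB2)

theorem sup_gen (hT : Nontriv T) (hF : FreeOn T m G) {g : F} (hg : g ∈ G) :
    sup m G g = {g} := by
  classical
  apply Set.Subset.antisymm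
  · exact sup_sub_of_cl (by simpa using hg) (Cl.base rfl)
  · intro y hy
    rw [Set.mem_singleton_iff.1 hy]
    obtain ⟨N, b, hb, p, q, hpq⟩ := hT
    obtain ⟨φ, hφ, hφ2⟩ := hF.lift b hb (fun _ => p)
    obtain ⟨ψ, hψ, hψ2⟩ := hF.lift b hb (fun z => if z = g then q else p)
    refine ⟨hg, N, b, hb, φ, ψ, hφ, hψ, ?_, ?_⟩
    · intro x hx hxg
      rw [hφ2 x hx, hψ2 x hx, if_neg hxg]
    · rw [hφ2 g hg, hψ2 g hg, if_pos rfl]
      exact hpq

theorem sup_hom (hF : FreeOn T m G) {f : F → F} (hf : IsHom m m f) (a : F) :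
    sup m G (f a) ⊆ ⋃ r ∈ sup m G a, sup m G (f r) := by
  rintro g ⟨hg, B, s, hs, k, k', hk, hk', hx, hne⟩
  by_contra hcon
  simp only [Set.mem_iUnion, not_exists] at hcon
  apply hne
  refine sup_ext hF hs (hcomp hk hf) (hcomp hk' hf) (a := a) ?_
  intro r hr
  by_contra hr2
  exact hcon r hr ⟨hg, B, s, hs, k, k', hk, hk', hx, hr2⟩

end

section
variable {S : Sig} {F : Type} {n : ℕ} {m : Str S F} {c : (f : S.Op) → Fin (S.ar f) → ZMod n}

theorem lin_zero : IsHom m (linStr c) (fun _ => 0) := by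
  intro f a
  simp [linStr]

theorem lin_add {φ ψ : F → ZMod n} (hφ : IsHom m (linStr c) φ) (hψ : IsHom m (linStr c) ψ) :
    IsHom m (linStr c) (fun x => φ x + ψ x) := by
  intro f a
  simp only
  rw [hφ, hψ]
  simp only [linStr, Function.comp, mul_add, Finset.sum_add_distrib]

theorem lin_smul (r : ZMod n) {φ : F → ZMod n} (hφ : IsHom m (linStr c) φ) :
    IsHom m (linStr c) (fun x => r * φ x) := by
  intro f a
  simp only
  rw [hφ]
  simp only [linStr, Function.comp, Finset.mul_sum]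
  refine Finset.sum_congr rfl fun i _ => ?_
  ring

end

section
variable {T : Theory} {F : Type} {m : Str T.sig F} {G : Set F} {n : ℕ}

/-- The world of a free algebra. -/
def world (hF : FreeOn T m G) (hT : Nontriv T)
    {c : (f : T.sig.Op) → Fin (T.sig.ar f) → ZMod n} (hc : T.Models (linStr c)) : World F n where
  G := G
  Hom := {f | IsHom m m f}
  Lin := {f | IsHom m (linStr c) f}
  supp := sup m G
  fin := sup_finite hF
  sub := fun _ => sup_sub
  gen := fun _ ha => sup_gen hT hF ha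
  hid := hid m
  hcomp := fun _ hf _ hg => hcomp hf hg
  hlift := fun f => hF.lift m hF.model f
  hext := fun _ hf _ hg _ h => sup_ext hF hF.model hf hg h
  hsupp := fun _ hf a => sup_hom hF hf a
  lcomp := fun _ hf _ hg => hcomp hf hg
  lzero := lin_zero (m := m)
  ladd := fun _ hf _ hg => lin_add hf hg
  lsmul := fun r _ hf => lin_smul r hf
  llift := fun f => hF.lift (linStr c) hc f
  lext := fun _ hf _ hg _ h => sup_ext hF hc hf hg h

end

section
variable {T : Bool → Theory} (L : Layered T)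

theorem cl_of_term {S : Sig} {M : Type} {a : Str S M} {A : Set M} (t : Term S M)
    (h : ∀ g ∈ t.vars, Cl a A g) : Cl a A (t.eval a id) := by
  induction t with
  | var x => exact h x rfl
  | op f b ih =>
    refine Cl.op f _ fun i => ih i ?_
    intro g hg
    exact h g (Set.mem_iUnion.2 ⟨i, hg⟩)

theorem lay_gen (i : Bool) (x : L.M) : Cl (L.m i) (L.G i) x := by
  by_cases hx : x ∈ L.G i
  · exact Cl.base hx
  · obtain ⟨t, ht, ht2⟩ := L.gen i x hx
    rw [← ht]
    exact cl_of_term t (fun g hg => Cl.base (ht2 g hg).1)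

theorem lay_free (i : Bool) : FreeOn (T i) (L.m i) (L.G i) :=
  ⟨L.models i, lay_gen L i, fun b hb f => L.free i _ b hb f⟩

theorem nontriv_of_lin {T : Theory} {n : ℕ} (hn : 2 ≤ n)
    {c : (f : T.sig.Op) → Fin (T.sig.ar f) → ZMod n} (hc : T.Models (linStr c)) : Nontriv T := by
  have : Fact (1 < n) := ⟨hn⟩
  exact ⟨ZMod n, linStr c, hc, 0, 1, zero_ne_one⟩

/-- The abstract layered algebra. -/
def lay {n : ℕ} (hn : 2 ≤ n) {c : ∀ i, (f : (T i).sig.Op) → Fin ((T i).sig.ar f) → ZMod n}
    (hc : ∀ i, (T i).Models (linStr (c i))) : Pool.Agent.Helper470.Dim.Layered L.M n where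
  W := fun i => world (lay_free L i) (nontriv_of_lin hn (hc i)) (hc i)
  var := L.x
  inj := L.x_inj
  cover := fun a i h => (L.union a i).resolve_left h
  vars := L.inter
  wf := by
    refine Subrelation.wf (r := fun a b : L.M => L.rank a < L.rank b) ?_
      (InvImage.wf _ Nat.lt_wfRel.wf)
    rintro r a ⟨i, ha, hr⟩
    obtain ⟨t, ht, ht2⟩ := L.gen i a ha
    have hcl : Cl (L.m i) t.vars a := by
      have := cl_of_term (a := L.m i) (A := t.vars) t (fun g hg => Cl.base hg)
      rwa [ht] at this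
    have hr' : r ∈ t.vars := sup_sub_of_cl (fun g hg => (ht2 g hg).1) hcl hr
    exact (ht2 r hr').2

end

section
variable {T : Bool → Theory} (L : Layered T)

/-- Homomorphisms with prescribed values on the variables. -/
theorem exists_hom_x (i : Bool) {N : Type} (s : Str (T i).sig N) (hs : (T i).Models s)
    (pr : ℕ → N) : ∃ φ : L.M → N, IsHom (L.m i) s φ ∧ ∀ j, φ (L.x j) = pr j := by
  classical
  obtain ⟨φ, hφ, hφ2⟩ := L.free i N s hs
    (fun y => if h : ∃ j, L.x j = y then pr h.choose else pr 0)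
  refine ⟨φ, hφ, fun j => ?_⟩
  have h : ∃ j', L.x j' = L.x j := ⟨j, rfl⟩
  rw [hφ2 _ ((L.inter (L.x j)).2 ⟨j, rfl⟩ i), dif_pos h, L.x_inj h.choose_spec]

/-- The hypothesis of the core statement. -/
theorem core_hyp {n : ℕ} (hn : 2 ≤ n)
    {c : ∀ i, (f : (T i).sig.Op) → Fin ((T i).sig.ar f) → ZMod n}
    (hc : ∀ i, (T i).Models (linStr (c i))) (h : PA (join T) n) :
    ∃ P : L.M, ∀ σ : Bool → Equiv.Perm L.M, ∃ S : L.M → (Fin (n + 1) → L.M) → L.M,
      (∀ β, IsAff n (S β)) ∧
      ∀ ψ : L.M → L.M, (∀ i, (fun x => (σ i) (ψ x)) ∈ ((lay L hn hc).W i).Hom) →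
         ψ P = S (ψ ((lay L hn hc).var (n+1))) (fun j => ψ ((lay L hn hc).var j)) := by
  obtain ⟨t, ht⟩ := h
  refine ⟨t.eval (joinStr L.m)
    (Sum.elim (fun j : Fin (n + 1) => L.x j) (fun _ : Unit => L.x (n+1))), ?_⟩
  intro σ
  let ms : ∀ i, Str (T i).sig L.M := fun i f a =>
    (σ i).symm (L.m i f (fun k => (σ i).symm.symm (a k)))
  have hms : ∀ i, (T i).Models (ms i) := fun i => LayB.models_of_equiv (σ i).symm (L.models i)
  refine ⟨fun β a => t.eval (joinStr ms) (Sum.elim a (fun _ => β)), ?_, ?_⟩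
  · intro β
    exact ht L.M (joinStr ms) ((join_models _).2 hms) β
  · intro ψ hψ
    have hψ' : ∀ i, IsHom (L.m i) (ms i) ψ := by
      intro i f a
      have := hψ i f a
      simp only at this
      show ψ (L.m i f a) = (σ i).symm (L.m i f (fun k => (σ i) (ψ (a k))))
      rw [Equiv.eq_symm_apply]
      exact this
    have hj : IsHom (joinStr L.m) (joinStr ms) ψ := isHom_join.2 hψ'
    rw [LayB.eval_hom' hj]
    congr 1
    funext v
    rcases v with v | v <;> rfl

theorem exists_tm {S : Sig} {V M : Type} {a : Str S M} {ρ : V → M} {x : M}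
    (hx : Cl a (Set.range ρ) x) : ∃ t : Term S V, t.eval a ρ = x := by
  induction hx with
  | base hx => obtain ⟨v, rfl⟩ := hx; exact ⟨.var v, rfl⟩
  | op f v _ ih =>
    choose t ht using ih
    exact ⟨.op f t, by simp only [Term.eval]; congr 1; funext i; exact ht i⟩

/-- What the three identities give (proved by helper712). -/
def IsAffOf : Prop := ∀ (A : Type) [Nonempty A] (n : ℕ), 2 ≤ n → ∀ S : (Fin (n + 1) → A) → A,
  (∀ (τ : Equiv.Perm (Fin (n + 1))) a, S (a ∘ τ) = S a) →
  (∀ x y, S (fun j => if j = 0 then x else y) = x) →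
  (∀ (a : Fin (n + 1) → A) u v,
    S (fun j => if j = 0 then S (fun k => if k = Fin.last n then u else a k)
      else if j = Fin.last n then v else u) = S (fun k => if k = Fin.last n then v else a k)) →
  IsAff n S

theorem pa_of_out (hS : IsAffOf) {n : ℕ} (hn : 2 ≤ n)
    {c : ∀ i, (f : (T i).sig.Op) → Fin ((T i).sig.ar f) → ZMod n}
    (hc : ∀ i, (T i).Models (linStr (c i))) (i : Bool) (h : Out (lay L hn hc) i) :
    PA (T i) n := by
  classical
  obtain ⟨q, h1, h2, h3, h4⟩ := h
  change ∀ κ, IsHom (L.m i) (L.m i) κ → (∀ j ≤ n, κ (L.x j) = L.x j) →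
    κ (L.x (n+1)) = L.x (n+1) → κ q = q at h1
  change ∀ τ : Equiv.Perm (Fin (n + 1)), ∀ κ, IsHom (L.m i) (L.m i) κ →
    (∀ j : Fin (n + 1), κ (L.x j) = L.x (τ j)) → κ (L.x (n+1)) = L.x (n+1) → κ q = q at h2
  change ∀ κ, IsHom (L.m i) (L.m i) κ → κ (L.x 0) = L.x 0 →
    (∀ j, 1 ≤ j → j ≤ n → κ (L.x j) = L.x (n+2)) → κ (L.x (n+1)) = L.x (n+1) →
    κ q = L.x 0 at h3
  change ∀ κ, IsHom (L.m i) (L.m i) κ → ∀ κu, IsHom (L.m i) (L.m i) κu →
      ∀ κv, IsHom (L.m i) (L.m i) κv →
      (∀ j < n, κu (L.x j) = L.x j) → κu (L.x n) = L.x (n+2) →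
      κu (L.x (n+1)) = L.x (n+1) →
      (∀ j < n, κv (L.x j) = L.x j) → κv (L.x n) = L.x (n+3) →
      κv (L.x (n+1)) = L.x (n+1) →
      κ (L.x 0) = κu q → (∀ j, 1 ≤ j → j < n → κ (L.x j) = L.x (n+2)) →
      κ (L.x n) = L.x (n+3) → κ (L.x (n+1)) = L.x (n+1) →
      κ q = κv q at h4
  let ρ : Fin (n + 1) ⊕ Unit → L.M := Sum.elim (fun j => L.x j) (fun _ => L.x (n+1))
  -- `q` is a term
  have hq : ∃ t : Term (T i).sig (Fin (n + 1) ⊕ Unit), t.eval (L.m i) ρ = q := by
    obtain ⟨κ, hκ, hκ2⟩ := L.free i L.M (L.m i) (L.models i)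
      (fun y => if y ∈ Set.range ρ then y else L.x (n+1))
    have hG : ∀ j, L.x j ∈ L.G i := fun j => (L.inter (L.x j)).2 ⟨j, rfl⟩ i
    have e : κ q = q := by
      apply h1 κ hκ
      · intro j hj
        rw [hκ2 _ (hG j), if_pos ⟨Sum.inl ⟨j, by omega⟩, rfl⟩]
      · rw [hκ2 _ (hG _), if_pos ⟨Sum.inr (), rfl⟩]
    apply exists_tm
    rw [← e]
    refine ((lay_gen L i q).map hκ).mono ?_
    rintro _ ⟨y, hy, rfl⟩
    rw [hκ2 y hy]
    split_ifs with h5
    · exact h5
    · exact ⟨Sum.inr (), rfl⟩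
  obtain ⟨t, ht⟩ := hq
  -- value of `q` under a homomorphism
  have hval : ∀ {N : Type} (s : Str (T i).sig N) (φ : L.M → N), IsHom (L.m i) s φ →
      φ q = t.eval s (Sum.elim (fun j : Fin (n + 1) => φ (L.x j)) (fun _ => φ (L.x (n+1)))) := by
    intro N s φ hφ
    rw [← ht, LayB.eval_hom' hφ]
    congr 1
    funext v
    rcases v with v | v <;> rfl
  refine ⟨t, ?_⟩
  intro M s hs b
  have : Nonempty M := ⟨b⟩
  apply hS M n hn
  · intro τ a
    obtain ⟨κ, hκ, hκ2⟩ := exists_hom_x L i (L.m i) (L.models i)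
      (fun j => if h : j < n + 1 then L.x (τ ⟨j, h⟩) else L.x j)
    obtain ⟨φ, hφ, hφ2⟩ := exists_hom_x L i s hs
      (fun j => if h : j < n + 1 then a ⟨j, h⟩ else b)
    have hj : ∀ j : Fin (n + 1), κ (L.x j) = L.x (τ j) := by
      intro j
      rw [hκ2, dif_pos j.2]
    have hb : κ (L.x (n+1)) = L.x (n+1) := by
      rw [hκ2, dif_neg (by omega)]
    have e := congrArg φ (h2 τ κ hκ hj hb)
    rw [hval s (fun x => φ (κ x)) (hcomp hφ hκ), hval s φ hφ] at e
    have e1 : ∀ j : Fin (n + 1), φ (L.x j) = a j := by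
      intro j
      rw [hφ2, dif_pos j.2]
    have e2 : φ (L.x (n+1)) = b := by
      rw [hφ2, dif_neg (by omega)]
    simp only [hj, hb, e1, e2] at e
    exact e
  · intro x y
    obtain ⟨κ, hκ, hκ2⟩ := exists_hom_x L i (L.m i) (L.models i)
      (fun j => if j = 0 then L.x 0 else if j ≤ n then L.x (n+2) else L.x j)
    obtain ⟨φ, hφ, hφ2⟩ := exists_hom_x L i s hs
      (fun j => if j = 0 then x else if j = n + 1 then b else y)
    have hb : κ (L.x (n+1)) = L.x (n+1) := by
      rw [hκ2, if_neg (by omega), if_neg (by omega)]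
    have hk0 : κ (L.x 0) = L.x 0 := by rw [hκ2, if_pos rfl]
    have hkj : ∀ j, 1 ≤ j → j ≤ n → κ (L.x j) = L.x (n+2) := by
      intro j hj hj2
      rw [hκ2, if_neg (by omega), if_pos hj2]
    have e := congrArg φ (h3 κ hκ hk0 hkj hb)
    rw [hval s (fun x => φ (κ x)) (hcomp hφ hκ)] at e
    have e1 : ∀ j : Fin (n + 1), φ (κ (L.x j)) = if j = 0 then x else y := by
      intro j
      by_cases hj : j = 0
      · subst hj
        rw [if_pos rfl]
        show φ (κ (L.x 0)) = x
        rw [hk0, hφ2, if_pos rfl]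
      · have hj' : (j : ℕ) ≠ 0 := fun h => hj (Fin.ext h)
        rw [if_neg hj, hkj j (by omega) (by omega), hφ2, if_neg (by omega), if_neg (by omega)]
    have e2 : φ (κ (L.x (n+1))) = b := by
      rw [hb, hφ2, if_neg (by omega), if_pos rfl]
    have e3 : φ (L.x 0) = x := by rw [hφ2, if_pos rfl]
    simp only [e1, e2, e3] at e
    exact e
  · intro a u v
    obtain ⟨κu, hκu, hκu2⟩ := exists_hom_x L i (L.m i) (L.models i)
      (fun j => if j = n then L.x (n+2) else L.x j)
    obtain ⟨κv, hκv, hκv2⟩ := exists_hom_x L i (L.m i) (L.models i)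
      (fun j => if j = n then L.x (n+3) else L.x j)
    obtain ⟨κ, hκ, hκ2⟩ := exists_hom_x L i (L.m i) (L.models i)
      (fun j => if j = 0 then κu q else if j < n then L.x (n+2) else if j = n then L.x (n+3)
        else L.x j)
    obtain ⟨φ, hφ, hφ2⟩ := exists_hom_x L i s hs
      (fun j => if h : j < n + 1 then a ⟨j, h⟩ else if j = n + 1 then b else
        if j = n + 2 then u else v)
    have u1 : ∀ j < n, κu (L.x j) = L.x j := fun j hj => by rw [hκu2, if_neg (by omega)]
    have u2 : κu (L.x n) = L.x (n+2) := by rw [hκu2, if_pos rfl]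
    have u3 : κu (L.x (n+1)) = L.x (n+1) := by rw [hκu2, if_neg (by omega)]
    have v1 : ∀ j < n, κv (L.x j) = L.x j := fun j hj => by rw [hκv2, if_neg (by omega)]
    have v2 : κv (L.x n) = L.x (n+3) := by rw [hκv2, if_pos rfl]
    have v3 : κv (L.x (n+1)) = L.x (n+1) := by rw [hκv2, if_neg (by omega)]
    have k1 : κ (L.x 0) = κu q := by rw [hκ2, if_pos rfl]
    have k2 : ∀ j, 1 ≤ j → j < n → κ (L.x j) = L.x (n+2) := fun j hj hj2 => by
      rw [hκ2, if_neg (by omega), if_pos hj2]
    have k3 : κ (L.x n) = L.x (n+3) := by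
      rw [hκ2, if_neg (by omega), if_neg (by omega), if_pos rfl]
    have k4 : κ (L.x (n+1)) = L.x (n+1) := by
      rw [hκ2, if_neg (by omega), if_neg (by omega), if_neg (by omega)]
    have e := congrArg φ (h4 κ hκ κu hκu κv hκv u1 u2 u3 v1 v2 v3 k1 k2 k3 k4)
    rw [hval s (fun x => φ (κ x)) (hcomp hφ hκ), hval s (fun x => φ (κv x)) (hcomp hφ hκv)] at e
    have f1 : φ (L.x (n+1)) = b := by rw [hφ2, dif_neg (by omega), if_pos rfl]
    have f2 : φ (L.x (n+2)) = u := by
      rw [hφ2, dif_neg (by omega), if_neg (by omega), if_pos rfl]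
    have f3 : φ (L.x (n+3)) = v := by
      rw [hφ2, dif_neg (by omega), if_neg (by omega), if_neg (by omega)]
    have f4 : ∀ j : Fin (n + 1), φ (L.x j) = a j := fun j => by rw [hφ2, dif_pos j.2]
    have fu : φ (κu q) = t.eval s (Sum.elim (fun k => if k = Fin.last n then u else a k)
        (fun _ => b)) := by
      rw [hval s (fun x => φ (κu x)) (hcomp hφ hκu)]
      have e1 : ∀ j : Fin (n + 1), φ (κu (L.x j)) = if j = Fin.last n then u else a j := by
        intro j
        by_cases hj : j = Fin.last n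
        · subst hj
          rw [if_pos rfl]
          show φ (κu (L.x n)) = u
          rw [u2, f2]
        · have hj' : (j : ℕ) ≠ n := fun h => hj (Fin.ext h)
          rw [if_neg hj, u1 j (by omega), f4]
      simp only [e1, u3, f1]
    have e1 : ∀ j : Fin (n + 1), φ (κv (L.x j)) = if j = Fin.last n then v else a j := by
      intro j
      by_cases hj : j = Fin.last n
      · subst hj
        rw [if_pos rfl]
        show φ (κv (L.x n)) = v
        rw [v2, f3]
      · have hj' : (j : ℕ) ≠ n := fun h => hj (Fin.ext h)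
        rw [if_neg hj, v1 j (by omega), f4]
    have e2 : ∀ j : Fin (n + 1), φ (κ (L.x j)) = if j = 0 then φ (κu q)
        else if j = Fin.last n then v else u := by
      intro j
      by_cases hj : j = 0
      · subst hj
        rw [if_pos rfl]
        show φ (κ (L.x 0)) = _
        rw [k1]
      · have hj0 : (j : ℕ) ≠ 0 := fun h => hj (Fin.ext h)
        rw [if_neg hj]
        by_cases hj' : j = Fin.last n
        · subst hj'
          rw [if_pos rfl]
          show φ (κ (L.x n)) = v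
          rw [k3, f3]
        · have hj'' : (j : ℕ) ≠ n := fun h => hj' (Fin.ext h)
          rw [if_neg hj', k2 j (by omega) (by omega), f2]
    simp only [e1, e2, v3, k4, f1, fu] at e
    exact e

end

end G1

/-- Primeness of the parametric affine condition (from the core statement). -/
theorem pa_prime_of (core : CoreStatement) (hS : G1.IsAffOf) (T : Bool → Theory) {n : ℕ}
    (hn : 2 ≤ n) (hc : ∀ i, Countable (T i).sig.Op) (hl : ∀ i, HasLin (T i) n)
    (h : PA (join T) n) : ∃ i, PA (T i) n := by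
  choose c hc' using hl
  obtain ⟨L⟩ := exists_layered T hc (fun i => by
    obtain ⟨N, s, hs, x, y, hxy⟩ := G1.nontriv_of_lin hn (hc' i)
    exact ⟨N, s, hs, ⟨x, y, hxy⟩⟩)
  obtain ⟨P, hP⟩ := G1.core_hyp L hn hc' h
  obtain ⟨i, hi⟩ := core L.M n hn (G1.lay L hn hc') P hP
  exact ⟨i, G1.pa_of_out L hS hn hc' i hi⟩

end Pool.Agent.Helper470.DimT
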