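import Pool.Agent.Helper470.DimT.B
import Pool.Agent.Helper470.DimT.PA

set_option autoImplicit false

/-! Joins of nontrivial theories are nontrivial. -/

namespace Pool.Agent.Helper470.DimT

open LayB

theorem exists_nat_model (T : Theory) [Countable T.sig.Op] (h : Nontriv T) :
    ∃ s : Str T.sig ℕ, T.Models s := by
  classical
  have := countable_FA T ℕ
  have : Infinite (FA T ℕ) := Infinite.of_injective _ (FA.var_inj h (V := ℕ))
  obtain ⟨E⟩ : Nonempty (FA T ℕ ≃ ℕ) := nonempty_equiv_of_countable
  exact ⟨_, models_of_equiv E (FA.models T ℕ)⟩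

theorem nontriv_join {ι : Type} (T : ι → Theory) (hc : ∀ i, Countable (T i).sig.Op)
    (h : ∀ i, Nontriv (T i)) : Nontriv (join T) := by
  have h1 : ∀ i, ∃ s : Str (T i).sig ℕ, (T i).Models s := fun i => by
    have := hc i
    exact exists_nat_model (T i) (h i)
  choose s hs using h1
  refine ⟨ℕ, joinStr s, ?_, 0, 1, by decide⟩
  rw [join_models]
  exact hs

end Pool.Agent.Helper470.DimT
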