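import Mathlib

/-! Strong Mal'cev conditions, SC-theories, bases and the dimension of a variety
(the statement of `MP_001d24_al`). -/

namespace Pool.Agent.Helper470.DimT

/-- A signature: operation symbols with finite arities (arity `0` is allowed). -/
structure Sig where
  Op : Type
  ar : Op → ℕ

/-- Terms in the signature `S` with variables from `V`. -/
inductive Term (S : Sig) (V : Type) : Type
  | var : V → Term S V
  | op : (f : S.Op) → (Fin (S.ar f) → Term S V) → Term S V

/-- An interpretation of the signature `S` on the set `M`. -/
abbrev Str (S : Sig) (M : Type) : Type := (f : S.Op) → (Fin (S.ar f) → M) → M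

/-- Value of a term. -/
def Term.eval {S : Sig} {V M : Type} (m : Str S M) (v : V → M) : Term S V → M
  | .var x => v x
  | .op f a => m f (fun i => (a i).eval m v)

/-- A theory: a signature with a set of identities (between terms in the variables `ℕ`). -/
structure Theory where
  sig : Sig
  ids : Set (Term sig ℕ × Term sig ℕ)

/-- `m` is a model of the theory `T` (a member of the variety). -/
def Theory.Models (T : Theory) {M : Type} (m : Str T.sig M) : Prop :=
  ∀ e ∈ T.ids, ∀ v : ℕ → M, e.1.eval m v = e.2.eval m v

/-- Simultaneous substitution of terms for variables. -/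
def Term.subst {S : Sig} {V W : Type} (σ : V → Term S W) : Term S V → Term S W
  | .var x => σ x
  | .op f a => .op f (fun i => (a i).subst σ)

/-- Replace every operation symbol `f` by the term `t f` of the same arity. -/
def Term.repl {S S' : Sig} {V : Type} (t : ∀ f : S.Op, Term S' (Fin (S.ar f))) :
    Term S V → Term S' V
  | .var x => .var x
  | .op f a => (t f).subst (fun i => (a i).repl t)

/-- The identity `e` holds in the variety of all models of `V`. -/
def Theory.Holds (V : Theory) (e : Term V.sig ℕ × Term V.sig ℕ) : Prop :=
  ∀ (M : Type) (m : Str V.sig M), V.Models m → ∀ v : ℕ → M, e.1.eval m v = e.2.eval m v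

/-- A strong Mal'cev condition: finitely many operation symbols `0, ..., k - 1` of fixed finite
arities, and a finite list of identities between terms in these symbols (and variables `ℕ`). -/
structure Cond where
  k : ℕ
  ar : Fin k → ℕ
  ids : List (Term ⟨Fin k, ar⟩ ℕ × Term ⟨Fin k, ar⟩ ℕ)

/-- The signature of a strong Mal'cev condition. -/
def Cond.sig (σ : Cond) : Sig := ⟨Fin σ.k, σ.ar⟩

/-- The variety `V` (of all models of the theory `V`) satisfies the condition `σ`: there are terms
`t 0, ..., t (k - 1)` of `V` of the same arities as the symbols of `σ` such that every identity of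
`σ`, with the symbols replaced by these terms, holds in `V`. -/
def Theory.Satisfies (V : Theory) (σ : Cond) : Prop :=
  ∃ t : ∀ i : Fin σ.k, Term V.sig (Fin (σ.ar i)),
    ∀ e ∈ σ.ids, V.Holds (e.1.repl (S := σ.sig) t, e.2.repl (S := σ.sig) t)

/-- `τ` is implied by the conjunction of the conditions in `Γ`: every variety satisfying all of
them satisfies `τ`. -/
def ImpliedBy (Γ : Set Cond) (τ : Cond) : Prop :=
  ∀ V : Theory, (∀ σ ∈ Γ, V.Satisfies σ) → V.Satisfies τ

/-- The SC-theory of `V`, among the conditions with property `adm` (all conditions, or those in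
which every symbol has positive arity). -/
def SC (adm : Cond → Prop) (V : Theory) : Set Cond := {σ | adm σ ∧ V.Satisfies σ}

/-- Every member of `C` is implied by the conjunction of a finite subset of `B`. -/
def Generates (B C : Set Cond) : Prop :=
  ∀ τ ∈ C, ∃ Γ : Set Cond, Γ ⊆ B ∧ Γ.Finite ∧ ImpliedBy Γ τ

/-- No member of `B` is implied by the conjunction of finitely many other members of `B`. -/
def Independent (B : Set Cond) : Prop :=
  ∀ σ ∈ B, ¬ ∃ Γ : Set Cond, Γ ⊆ B \ {σ} ∧ Γ.Finite ∧ ImpliedBy Γ σ

/-- Bases of the SC-theory `C`. -/
def IsBasis (B C : Set Cond) : Prop := B ⊆ C ∧ Generates B C ∧ Independent B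

/-- The dimension of the variety `V`: the supremum of the cardinalities of the bases of its
SC-theory. -/
noncomputable def dim (adm : Cond → Prop) (V : Theory) : ℕ∞ :=
  ⨆ B ∈ {B : Set Cond | IsBasis B (SC adm V)}, B.encard

/-- All conditions (nullary operation symbols allowed). -/
def anyArity : Cond → Prop := fun _ => True

/-- Conditions all of whose operation symbols have positive arity. -/
def posArity : Cond → Prop := fun σ => ∀ i, 0 < σ.ar i

/-- Operation symbols of groups. -/
inductive GOp
  | mul
  | inv
  | one

/-- The signature of groups. -/
def groupSig : Sig := ⟨GOp, fun | .mul => 2 | .inv => 1 | .one => 0⟩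

/-- A group as a structure. -/
def groupStr (G : Type) [Group G] : Str groupSig G := fun f =>
  match f with
  | .mul => fun a : Fin 2 → G => a 0 * a 1
  | .inv => fun a : Fin 1 → G => (a 0)⁻¹
  | .one => fun _ => 1

/-- The variety `HSP(G)` generated by a group `G`, axiomatised by all identities true in `G`. -/
def VG (G : Type) [Group G] : Theory where
  sig := groupSig
  ids := {e | ∀ v : ℕ → G, e.1.eval (groupStr G) v = e.2.eval (groupStr G) v}

end Pool.Agent.Helper470.DimT
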